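import Pool.Agent.H359R2.Cone

/-! Few vectors are affected by a sparse set. -/

namespace H359R2

open Finset

noncomputable def wt (d : ℕ) (B : Set ℕ) : ℕ → ℝ :=
  B.indicator (fun n => (tau (n ^ 2 + d) : ℝ) / n)

lemma wt_nonneg (d : ℕ) (B : Set ℕ) (n : ℕ) : 0 ≤ wt d B n := by
  unfold wt
  apply Set.indicator_nonneg
  intro n _
  positivity

lemma wt_of_mem {d : ℕ} {B : Set ℕ} {n : ℕ} (h : n ∈ B) :
    wt d B n = (tau (n ^ 2 + d) : ℝ) / n := by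
  unfold wt
  exact Set.indicator_of_mem h _

lemma tail_lt {d : ℕ} {B : Set ℕ} (hs : Summable (wt d B)) {ε : ℝ} (hε : 0 < ε) :
    ∃ Y0 : ℕ, ∀ t : Finset ℕ, (∀ n ∈ t, Y0 ≤ n) → ∑ n ∈ t, wt d B n < ε := by
  obtain ⟨s, hs⟩ := summable_iff_vanishing_norm.mp hs ε hε
  refine ⟨s.sup id + 1, ?_⟩
  intro t ht
  have hdisj : Disjoint t s := by
    rw [Finset.disjoint_left]
    intro n hn hns
    have h1 := ht n hn
    have h2 : id n ≤ s.sup id := Finset.le_sup hns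
    simp only [id] at h2
    omega
  have := hs t hdisj
  exact lt_of_le_of_lt (le_abs_self _) this

/-- the edges with scalar product `n` below the diagonal -/
def EE (d n : ℕ) : Finset (ℕ × ℕ × ℕ × ℕ) :=
  (Finset.range (n + 1) ×ˢ Finset.range (n + 1) ×ˢ Finset.range (n + 1) ×ˢ
    Finset.range (n + 1)).filter (fun z =>
      z.1 * z.2.2.2 = z.2.1 * z.2.2.1 + 1 ∧ dt d z.1 z.2.1 z.2.2.1 z.2.2.2 = n ∧
      1 ≤ z.1 ∧ 1 ≤ z.2.2.1 ∧ z.2.1 ≤ z.1 ∧ z.2.2.2 ≤ z.2.2.1)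

lemma mem_EE {d n a b c e : ℕ} (h : a * e = b * c + 1) (hn : dt d a b c e = n)
    (ha : 1 ≤ a) (hc : 1 ≤ c) (hb : b ≤ a) (he : e ≤ c) : (a, b, c, e) ∈ EE d n := by
  unfold EE
  rw [Finset.mem_filter]
  refine ⟨?_, h, hn, ha, hc, hb, he⟩
  have h1 : a * c ≤ n := by rw [← hn]; unfold dt; omega
  have h2 : a * 1 ≤ a * c := Nat.mul_le_mul_left _ hc
  have h3 : 1 * c ≤ a * c := Nat.mul_le_mul_right _ ha
  simp only [Finset.mem_product, Finset.mem_range]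
  omega

lemma EE_card {d n : ℕ} (hd : 1 ≤ d) : (EE d n).card ≤ tau (n ^ 2 + d) := by
  apply edges_card_le d n hd
  intro x hx
  unfold EE at hx
  rw [Finset.mem_filter] at hx
  exact ⟨hx.2.1, hx.2.2.1⟩

open Classical in
/-- the set of points of the triangle whose rotation is affected via a given edge -/
noncomputable def SS (d G1 G2 R : ℕ) (z : ℕ × ℕ × ℕ × ℕ) : Finset (ℕ × ℕ) :=
  (TT R).filter (fun x =>
    (∃ p q : ℕ, r1 d G1 G2 x = p * z.1 + q * z.2.2.1 ∧ r2 G1 G2 x = p * z.2.1 + q * z.2.2.2) ∧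
      Nm d z.1 z.2.1 ≤ Nm d (r1 d G1 G2 x) (r2 G1 G2 x) ∧
      Nm d z.2.2.1 z.2.2.2 ≤ Nm d (r1 d G1 G2 x) (r2 G1 G2 x))

open Classical in
lemma SS_card_sector {d n G1 G2 R : ℕ} (hn : 1 ≤ n) (hG1 : 1 ≤ G1) (hG : (3 + d) * G2 ≤ G1)
    {z : ℕ × ℕ × ℕ × ℕ} (hz : z ∈ EE d n) :
    ((SS d G1 G2 R z).card : ℝ) ≤ (1 + d) ^ 2 * R ^ 2 / n + R := by
  unfold EE at hz
  rw [Finset.mem_filter] at hz
  obtain ⟨_, h1, h2, h3, h4, h5, h6⟩ := hz
  have := sector_count d G1 G2 R z.1 z.2.1 z.2.2.1 z.2.2.2 hG1 hG h1 h5 h6 (by omega)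
    (SS d G1 G2 R z) (by
      intro x hx
      unfold SS at hx
      rw [Finset.mem_filter] at hx
      exact ⟨hx.1, hx.2.1⟩)
  rw [h2] at this
  exact this

open Classical in
lemma SS_card_crude {d n G1 G2 R : ℕ} (hn : 1 ≤ n) (hG1 : 1 ≤ G1) (hG : (3 + d) * G2 ≤ G1)
    (hR : 1 ≤ R) {z : ℕ × ℕ × ℕ × ℕ} (hz : z ∈ EE d n) :
    ((SS d G1 G2 R z).card : ℝ) ≤ (2 + d) ^ 2 * (1 + d) * G1 ^ 2 * R ^ 2 / n := by
  unfold EE at hz
  rw [Finset.mem_filter] at hz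
  obtain ⟨_, h1, h2, h3, h4, h5, h6⟩ := hz
  have := crude_count d G1 G2 R z.1 z.2.1 z.2.2.1 z.2.2.2 hG1 hR hG h1 h3 h4 h5 h6 (by omega)
    (SS d G1 G2 R z) (by
      intro x hx
      unfold SS at hx
      rw [Finset.mem_filter] at hx
      exact ⟨hx.1, hx.2.1, hx.2.2⟩)
  rw [h2] at this
  exact this

open Classical in
lemma aff_count (d : ℕ) (hd : 1 ≤ d) (B : Set ℕ) (hsum : Summable (wt d B)) (ε : ℝ) (hε : 0 < ε) :
    ∃ Y0 : ℕ, 1 ≤ Y0 ∧ ∀ Y, Y0 ≤ Y → ∀ G1 G2 : ℕ, 1 ≤ G1 → (3 + d) * G2 ≤ G1 →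
      ∃ R0 : ℕ, ∀ R, R0 ≤ R →
        (((TT R).filter (fun x => Aff d B Y (r1 d G1 G2 x) (r2 G1 G2 x))).card : ℝ)
          ≤ ε * R ^ 2 := by
  have hd1 : (0 : ℝ) < (1 + d) ^ 2 := by positivity
  obtain ⟨Y0, hY0⟩ := tail_lt hsum (ε := ε / (3 * (1 + d) ^ 2)) (by positivity)
  refine ⟨max Y0 1, le_max_right _ _, ?_⟩
  intro Y hY G1 G2 hG1 hG
  have hYY0 : Y0 ≤ Y := (le_max_left _ _).trans hY
  have hY1 : 1 ≤ Y := (le_max_right _ _).trans hY
  have hG1R : (0 : ℝ) < G1 := by exact_mod_cast hG1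
  obtain ⟨Y1, hY1'⟩ := tail_lt hsum (ε := ε / (3 * ((2 + d) ^ 2 * (1 + d) * G1 ^ 2)))
    (by positivity)
  set C : ℝ := ∑ n ∈ Finset.range (max Y Y1), (tau (n ^ 2 + d) : ℝ) with hC
  have hC0 : 0 ≤ C := by positivity
  refine ⟨⌈3 * C / ε⌉₊ + 1, ?_⟩
  intro R hR
  have hR1 : 1 ≤ R := by omega
  have hRC : 3 * C / ε ≤ R := by
    calc 3 * C / ε ≤ (⌈3 * C / ε⌉₊ : ℝ) := Nat.le_ceil _
      _ ≤ R := by exact_mod_cast (by omega : ⌈3 * C / ε⌉₊ ≤ R)
  have hRC2 : R * C ≤ ε / 3 * R ^ 2 := by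
    rw [div_le_iff₀ hε] at hRC
    have hR0 : (0 : ℝ) ≤ R := by positivity
    nlinarith
  set M := ((1 + d) * G1 ^ 2 * ((1 + d) * R ^ 2)) ^ 2 with hM
  set I := (Finset.Icc Y M).filter (fun n => n ∈ B) with hI
  have hsub : (TT R).filter (fun x => Aff d B Y (r1 d G1 G2 x) (r2 G1 G2 x)) ⊆
      I.biUnion (fun n => (EE d n).biUnion (fun z => SS d G1 G2 R z)) := by
    intro x hx
    rw [Finset.mem_filter] at hx
    obtain ⟨hxT, a, b, c, e, p, q, h, hYn, hmem, h1, h2, hN1, hN2⟩ := hx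
    rw [Finset.mem_biUnion]
    refine ⟨dt d a b c e, ?_, ?_⟩
    · rw [hI, Finset.mem_filter, Finset.mem_Icc]
      refine ⟨⟨hYn, ?_⟩, hmem⟩
      have hprod := nm_mul_nm d a b c e h
      have hle : Nm d (r1 d G1 G2 x) (r2 G1 G2 x) ≤ (1 + d) * G1 ^ 2 * ((1 + d) * R ^ 2) := by
        rw [nm_rot hG hxT]
        rw [mem_TT] at hxT
        exact Nat.mul_le_mul (nm_le le_rfl (by nlinarith)) (nm_le (by omega) (by omega))
      calc dt d a b c e ≤ dt d a b c e ^ 2 + d := by nlinarith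
        _ = Nm d a b * Nm d c e := hprod.symm
        _ ≤ ((1 + d) * G1 ^ 2 * ((1 + d) * R ^ 2)) * ((1 + d) * G1 ^ 2 * ((1 + d) * R ^ 2)) :=
            Nat.mul_le_mul (hN1.trans hle) (hN2.trans hle)
        _ = M := by rw [hM]; ring
    · have hsl := slope_edge (d := d) h (by omega) h1 h2 (r2_lt_r1 hG hG1 hxT)
      rw [Finset.mem_biUnion]
      refine ⟨(a, b, c, e), mem_EE h rfl hsl.1 hsl.2.1 hsl.2.2.1 hsl.2.2.2, ?_⟩
      unfold SS
      rw [Finset.mem_filter]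
      exact ⟨hxT, ⟨p, q, h1, h2⟩, hN1, hN2⟩
  -- bound for the inner union
  let bd : ℕ → ℝ := fun n => if n < max Y Y1 then
      (tau (n ^ 2 + d) : ℝ) * ((1 + d) ^ 2 * R ^ 2 / n + R) else
      (tau (n ^ 2 + d) : ℝ) * ((2 + d) ^ 2 * (1 + d) * G1 ^ 2 * R ^ 2 / n)
  have hinner : ∀ n ∈ I, (((EE d n).biUnion (fun z => SS d G1 G2 R z)).card : ℝ) ≤ bd n := by
    intro n hn
    rw [hI, Finset.mem_filter, Finset.mem_Icc] at hn
    have hn1 : 1 ≤ n := by omega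
    have h1 : (((EE d n).biUnion (fun z => SS d G1 G2 R z)).card : ℝ) ≤
        ∑ z ∈ EE d n, ((SS d G1 G2 R z).card : ℝ) := by
      exact_mod_cast Finset.card_biUnion_le
    refine h1.trans ?_
    have hEc : ((EE d n).card : ℝ) ≤ tau (n ^ 2 + d) := by exact_mod_cast EE_card hd
    by_cases hlt : n < max Y Y1
    · have : bd n = (tau (n ^ 2 + d) : ℝ) * ((1 + d) ^ 2 * R ^ 2 / n + R) := if_pos hlt
      rw [this]
      calc ∑ z ∈ EE d n, ((SS d G1 G2 R z).card : ℝ)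
          ≤ ∑ z ∈ EE d n, ((1 + d) ^ 2 * (R : ℝ) ^ 2 / n + R) :=
            Finset.sum_le_sum (fun z hz => SS_card_sector hn1 hG1 hG hz)
        _ = ((EE d n).card : ℝ) * ((1 + d) ^ 2 * (R : ℝ) ^ 2 / n + R) := by
            rw [Finset.sum_const, nsmul_eq_mul]
        _ ≤ _ := mul_le_mul_of_nonneg_right hEc (by positivity)
    · have : bd n = (tau (n ^ 2 + d) : ℝ) * ((2 + d) ^ 2 * (1 + d) * G1 ^ 2 * R ^ 2 / n) :=
        if_neg hlt
      rw [this]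
      calc ∑ z ∈ EE d n, ((SS d G1 G2 R z).card : ℝ)
          ≤ ∑ z ∈ EE d n, ((2 + d) ^ 2 * (1 + d) * (G1 : ℝ) ^ 2 * R ^ 2 / n) :=
            Finset.sum_le_sum (fun z hz => SS_card_crude hn1 hG1 hG hR1 hz)
        _ = ((EE d n).card : ℝ) * ((2 + d) ^ 2 * (1 + d) * (G1 : ℝ) ^ 2 * R ^ 2 / n) := by
            rw [Finset.sum_const, nsmul_eq_mul]
        _ ≤ _ := mul_le_mul_of_nonneg_right hEc (by positivity)
  have hcard : (((TT R).filter (fun x => Aff d B Y (r1 d G1 G2 x) (r2 G1 G2 x))).card : ℝ) ≤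
      ∑ n ∈ I, bd n := by
    calc (((TT R).filter (fun x => Aff d B Y (r1 d G1 G2 x) (r2 G1 G2 x))).card : ℝ)
        ≤ ((I.biUnion (fun n => (EE d n).biUnion (fun z => SS d G1 G2 R z))).card : ℝ) := by
          exact_mod_cast Finset.card_le_card hsub
      _ ≤ ∑ n ∈ I, (((EE d n).biUnion (fun z => SS d G1 G2 R z)).card : ℝ) := by
          exact_mod_cast Finset.card_biUnion_le
      _ ≤ ∑ n ∈ I, bd n := Finset.sum_le_sum hinner
  refine hcard.trans ?_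
  rw [← Finset.sum_filter_add_sum_filter_not I (fun n => n < max Y Y1)]
  have hwt : ∀ n ∈ I, (tau (n ^ 2 + d) : ℝ) / n = wt d B n := by
    intro n hn
    rw [hI, Finset.mem_filter] at hn
    exact (wt_of_mem hn.2).symm
  have hIY : ∀ n ∈ I, Y ≤ n := by
    intro n hn
    rw [hI, Finset.mem_filter, Finset.mem_Icc] at hn
    exact hn.1.1
  have hA : ∑ n ∈ I.filter (fun n => n < max Y Y1), bd n ≤ ε / 3 * R ^ 2 + ε / 3 * R ^ 2 := by
    have h1 : ∑ n ∈ I.filter (fun n => n < max Y Y1), bd n =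
        (1 + d) ^ 2 * R ^ 2 * ∑ n ∈ I.filter (fun n => n < max Y Y1), wt d B n +
        R * ∑ n ∈ I.filter (fun n => n < max Y Y1), (tau (n ^ 2 + d) : ℝ) := by
      rw [Finset.mul_sum, Finset.mul_sum, ← Finset.sum_add_distrib]
      apply Finset.sum_congr rfl
      intro n hn
      rw [Finset.mem_filter] at hn
      have : bd n = (tau (n ^ 2 + d) : ℝ) * ((1 + d) ^ 2 * R ^ 2 / n + R) := if_pos hn.2
      rw [this, ← hwt n hn.1]
      ring
    rw [h1]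
    have h2 : ∑ n ∈ I.filter (fun n => n < max Y Y1), wt d B n < ε / (3 * (1 + d) ^ 2) := by
      apply hY0
      intro n hn
      rw [Finset.mem_filter] at hn
      exact hYY0.trans (hIY n hn.1)
    have h3 : ∑ n ∈ I.filter (fun n => n < max Y Y1), (tau (n ^ 2 + d) : ℝ) ≤ C := by
      rw [hC]
      apply Finset.sum_le_sum_of_subset_of_nonneg
      · intro n hn
        rw [Finset.mem_filter] at hn
        rw [Finset.mem_range]
        exact hn.2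
      · intro n _ _
        positivity
    have hR0 : (0 : ℝ) ≤ R := by positivity
    have h4 : (1 + d) ^ 2 * R ^ 2 * ∑ n ∈ I.filter (fun n => n < max Y Y1), wt d B n ≤
        ε / 3 * R ^ 2 := by
      calc (1 + d) ^ 2 * R ^ 2 * ∑ n ∈ I.filter (fun n => n < max Y Y1), wt d B n
          ≤ (1 + d) ^ 2 * R ^ 2 * (ε / (3 * (1 + d) ^ 2)) :=
            mul_le_mul_of_nonneg_left h2.le (by positivity)
        _ = ε / 3 * R ^ 2 := by field_simp
    have h5 : R * ∑ n ∈ I.filter (fun n => n < max Y Y1), (tau (n ^ 2 + d) : ℝ) ≤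
        ε / 3 * R ^ 2 := (mul_le_mul_of_nonneg_left h3 hR0).trans hRC2
    linarith
  have hB : ∑ n ∈ I.filter (fun n => ¬ n < max Y Y1), bd n ≤ ε / 3 * R ^ 2 := by
    have h1 : ∑ n ∈ I.filter (fun n => ¬ n < max Y Y1), bd n =
        (2 + d) ^ 2 * (1 + d) * G1 ^ 2 * R ^ 2 *
          ∑ n ∈ I.filter (fun n => ¬ n < max Y Y1), wt d B n := by
      rw [Finset.mul_sum]
      apply Finset.sum_congr rfl
      intro n hn
      rw [Finset.mem_filter] at hn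
      have : bd n = (tau (n ^ 2 + d) : ℝ) * ((2 + d) ^ 2 * (1 + d) * G1 ^ 2 * R ^ 2 / n) :=
        if_neg hn.2
      rw [this, ← hwt n hn.1]
      ring
    rw [h1]
    have h2 : ∑ n ∈ I.filter (fun n => ¬ n < max Y Y1), wt d B n <
        ε / (3 * ((2 + d) ^ 2 * (1 + d) * G1 ^ 2)) := by
      apply hY1'
      intro n hn
      rw [Finset.mem_filter] at hn
      have := hn.2
      push Not at this
      exact (le_max_right _ _).trans this
    calc (2 + d) ^ 2 * (1 + d) * G1 ^ 2 * R ^ 2 *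
          ∑ n ∈ I.filter (fun n => ¬ n < max Y Y1), wt d B n
        ≤ (2 + d) ^ 2 * (1 + d) * G1 ^ 2 * R ^ 2 * (ε / (3 * ((2 + d) ^ 2 * (1 + d) * G1 ^ 2))) :=
          mul_le_mul_of_nonneg_left h2.le (by positivity)
      _ = ε / 3 * R ^ 2 := by field_simp
  linarith

end H359R2
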