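import Pool.Agent.H359R2.Tau

/-! Number of solutions of `m ∣ n^2 + d` in a dyadic interval. -/

namespace H359R2

open Finset

lemma card_congr_le (X L q : ℕ) (hq : 0 < q) (S : Finset ℕ)
    (hS : ∀ n ∈ S, X < n ∧ n ≤ X + L) (hc : ∀ n ∈ S, ∀ n' ∈ S, (q : ℤ) ∣ (n : ℤ) - n') :
    S.card ≤ L / q + 1 := by
  classical
  have hinj : Set.InjOn (fun n => (n - X - 1) / q) (S : Set ℕ) := by
    intro a ha b hb hab
    simp only at hab
    have ha' := hS a ha
    have hb' := hS b hb
    have hdvd := hc a ha b hb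
    obtain ⟨t, ht⟩ := hdvd
    have h1 : ((a - X - 1 : ℕ) : ℤ) = a - X - 1 := by omega
    have h2 : ((b - X - 1 : ℕ) : ℤ) = b - X - 1 := by omega
    have ha2 := Nat.div_add_mod (a - X - 1) q
    have hb2 := Nat.div_add_mod (b - X - 1) q
    have ha3 := Nat.mod_lt (a - X - 1) hq
    have hb3 := Nat.mod_lt (b - X - 1) hq
    rw [hab] at ha2
    have h5 : ((q : ℤ) * t) = ((a - X - 1) % q : ℕ) - ((b - X - 1) % q : ℕ) := by
      rw [← ht]
      have := congrArg (Nat.cast (R := ℤ)) ha2
      have h7 := congrArg (Nat.cast (R := ℤ)) hb2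
      rw [h1] at this
      rw [h2] at h7
      push_cast at this h7
      push_cast
      omega
    have ht0 : t = 0 := by
      by_contra hne
      rcases lt_or_gt_of_ne hne with h | h
      · have : (q : ℤ) * t ≤ (q : ℤ) * (-1) := by
          apply mul_le_mul_of_nonneg_left _ (by positivity)
          omega
        omega
      · have : (q : ℤ) * 1 ≤ (q : ℤ) * t := by
          apply mul_le_mul_of_nonneg_left _ (by positivity)
          omega
        omega
    rw [ht0, mul_zero] at ht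
    omega
  have himg : S.image (fun n => (n - X - 1) / q) ⊆ Finset.range (L / q + 1) := by
    intro y hy
    rw [Finset.mem_image] at hy
    obtain ⟨n, hn, rfl⟩ := hy
    have := hS n hn
    rw [Finset.mem_range, Nat.lt_succ_iff]
    apply Nat.div_le_div_right
    omega
  calc S.card = (S.image (fun n => (n - X - 1) / q)).card := (Finset.card_image_of_injOn hinj).symm
    _ ≤ (Finset.range (L / q + 1)).card := Finset.card_le_card himg
    _ = L / q + 1 := Finset.card_range _

/-- solutions of `m ∣ n^2+d` in `(X, X+L]`. -/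
lemma card_dvd_sq_add (d m X L : ℕ) (hd : 1 ≤ d) (hm : 1 ≤ m) :
    (((Finset.Ioc X (X + L)).filter (fun n => m ∣ n ^ 2 + d)).card : ℝ) ≤
      2 * d * tau m * (L / m + 1) := by
  classical
  set S := (Finset.Ioc X (X + L)).filter (fun n => m ∣ n ^ 2 + d) with hSdef
  by_cases hne : S.Nonempty
  swap
  · rw [Finset.not_nonempty_iff_eq_empty] at hne
    rw [hne]
    simp only [Finset.card_empty, Nat.cast_zero]
    positivity
  obtain ⟨n0, hn0⟩ := hne
  have hn0' := hn0
  rw [hSdef, Finset.mem_filter] at hn0'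
  -- the classifying function
  let G : ℕ → ℕ := fun n => Int.gcd (m : ℤ) ((n : ℤ) - n0)
  have hmaps : ∀ n ∈ S, G n ∈ m.divisors := by
    intro n _
    rw [Nat.mem_divisors]
    refine ⟨?_, by omega⟩
    have : (Int.gcd (m : ℤ) ((n : ℤ) - n0) : ℤ) ∣ (m : ℤ) := Int.gcd_dvd_left ..
    exact Int.natCast_dvd_natCast.mp this
  have hcard := Finset.card_eq_sum_card_fiberwise hmaps
  have hfib : ∀ g ∈ m.divisors, (((S.filter (fun n => G n = g)).card : ℕ) : ℝ) ≤ 2 * d * (L / m + 1) := by
    intro g hg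
    rw [Nat.mem_divisors] at hg
    obtain ⟨⟨h, hgh⟩, _⟩ := hg
    have hg0 : 0 < g := by
      rcases Nat.eq_zero_or_pos g with h0 | h0
      · rw [h0] at hgh; simp at hgh; omega
      · exact h0
    have hh0 : 0 < h := by
      rcases Nat.eq_zero_or_pos h with h0 | h0
      · rw [h0] at hgh; simp at hgh; omega
      · exact h0
    set F := S.filter (fun n => G n = g) with hF
    -- congruences
    have hcong : ∀ n ∈ F, (g : ℤ) ∣ (n : ℤ) - n0 ∧ (h : ℤ) ∣ (n : ℤ) + n0 := by
      intro n hn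
      rw [hF, Finset.mem_filter] at hn
      obtain ⟨hnS, hGn⟩ := hn
      rw [hSdef, Finset.mem_filter] at hnS
      have hgd : (g : ℤ) ∣ (n : ℤ) - n0 := by
        rw [← hGn]
        exact Int.gcd_dvd_right ..
      refine ⟨hgd, ?_⟩
      obtain ⟨t, ht⟩ := hgd
      have hdvd : (m : ℤ) ∣ ((n : ℤ) - n0) * (n + n0) := by
        have h1 : (m : ℤ) ∣ (n : ℤ) ^ 2 + d := by exact_mod_cast hnS.2
        have h2 : (m : ℤ) ∣ (n0 : ℤ) ^ 2 + d := by exact_mod_cast hn0'.2
        have h3 := dvd_sub h1 h2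
        have : ((n : ℤ) ^ 2 + d) - ((n0 : ℤ) ^ 2 + d) = ((n : ℤ) - n0) * (n + n0) := by ring
        rwa [this] at h3
      have hcop : IsCoprime (h : ℤ) t := by
        rw [Int.isCoprime_iff_gcd_eq_one]
        have h1 : Int.gcd (m : ℤ) ((n : ℤ) - n0) = g := hGn
        rw [ht, hgh] at h1
        push_cast at h1
        rw [Int.gcd_mul_left, Int.natAbs_natCast] at h1
        have : g * Int.gcd (h : ℤ) t = g * 1 := by rw [h1, mul_one]
        exact Nat.eq_of_mul_eq_mul_left hg0 this
      rw [ht, hgh] at hdvd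
      push_cast at hdvd
      rw [mul_assoc] at hdvd
      have h4 : (h : ℤ) ∣ t * (n + n0) := by
        apply Int.dvd_of_mul_dvd_mul_left _ hdvd
        positivity
      exact hcop.dvd_of_dvd_mul_left h4
    by_cases hFne : F.Nonempty
    swap
    · rw [Finset.not_nonempty_iff_eq_empty] at hFne
      rw [hFne]
      simp only [Finset.card_empty, Nat.cast_zero]
      positivity
    obtain ⟨n1, hn1⟩ := hFne
    have hc1 := hcong n1 hn1
    set e := Nat.gcd g h with he
    set q := Nat.lcm g h with hq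
    have hq0 : 0 < q := Nat.lcm_pos hg0 hh0
    have heq : e * q = m := by rw [he, hq, Nat.gcd_mul_lcm, hgh]
    have he2 : (e : ℤ) ∣ 2 * n0 := by
      have h1 : (e : ℤ) ∣ (n1 : ℤ) - n0 := dvd_trans (by exact_mod_cast Nat.gcd_dvd_left g h) hc1.1
      have h2 : (e : ℤ) ∣ (n1 : ℤ) + n0 := dvd_trans (by exact_mod_cast Nat.gcd_dvd_right g h) hc1.2
      have h3 := dvd_sub h2 h1
      have : ((n1 : ℤ) + n0) - ((n1 : ℤ) - n0) = 2 * n0 := by ring
      rwa [this] at h3
    have hee : (e : ℤ) * e ∣ 4 * d := by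
      have h1 : (e : ℤ) * e ∣ (2 * n0) * (2 * n0) := mul_dvd_mul he2 he2
      have h2 : (e : ℤ) * e ∣ m := by
        have : e * e ∣ g * h := mul_dvd_mul (Nat.gcd_dvd_left g h) (Nat.gcd_dvd_right g h)
        rw [← hgh] at this
        exact_mod_cast this
      have h3 : (m : ℤ) ∣ (n0 : ℤ) ^ 2 + d := by exact_mod_cast hn0'.2
      have h4 : (e : ℤ) * e ∣ 4 * ((n0 : ℤ) ^ 2 + d) := dvd_mul_of_dvd_right (dvd_trans h2 h3) 4
      have h5 := dvd_sub h4 h1
      have : 4 * ((n0 : ℤ) ^ 2 + d) - (2 * n0) * (2 * n0) = 4 * d := by ring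
      rwa [this] at h5
    have hee' : e * e ≤ 4 * d := by
      have : e * e ∣ 4 * d := by exact_mod_cast hee
      exact Nat.le_of_dvd (by omega) this
    have hele : e ≤ 2 * d := by
      by_contra hcon
      push Not at hcon
      have h1 : (2 * d + 1) * (2 * d + 1) ≤ e * e := Nat.mul_le_mul hcon hcon
      have h2 : 4 * d ≤ 4 * (d * d) := by
        have : d * 1 ≤ d * d := Nat.mul_le_mul_left _ hd
        omega
      nlinarith
    have hmq : m ≤ 2 * d * q := by
      rw [← heq]
      exact Nat.mul_le_mul_right _ hele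
    have hFc := card_congr_le X L q hq0 F (by
        intro n hn
        rw [hF, Finset.mem_filter] at hn
        have := hn.1
        rw [hSdef, Finset.mem_filter, Finset.mem_Ioc] at this
        exact this.1) (by
        intro a ha b hb
        have h1 := hcong a ha
        have h2 := hcong b hb
        have h3 : (g : ℤ) ∣ (a : ℤ) - b := by
          have := dvd_sub h1.1 h2.1
          have h' : ((a : ℤ) - n0) - ((b : ℤ) - n0) = a - b := by ring
          rwa [h'] at this
        have h4 : (h : ℤ) ∣ (a : ℤ) - b := by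
          have := dvd_sub h1.2 h2.2
          have h' : ((a : ℤ) + n0) - ((b : ℤ) + n0) = a - b := by ring
          rwa [h'] at this
        rw [Int.natCast_dvd] at h3 h4 ⊢
        exact Nat.lcm_dvd h3 h4)
    have h1 : ((F.card : ℕ) : ℝ) ≤ (L : ℝ) / q + 1 := by
      calc ((F.card : ℕ) : ℝ) ≤ ((L / q + 1 : ℕ) : ℝ) := by exact_mod_cast hFc
        _ = ((L / q : ℕ) : ℝ) + 1 := by push_cast; ring
        _ ≤ (L : ℝ) / q + 1 := by
          have := @Nat.cast_div_le ℝ _ _ _ L q
          linarith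
    have hmR : (0 : ℝ) < m := by exact_mod_cast hm
    have hqR : (0 : ℝ) < q := by exact_mod_cast hq0
    have hdR : (1 : ℝ) ≤ d := by exact_mod_cast hd
    have h2 : (L : ℝ) / q ≤ 2 * d * (L / m) := by
      have h3 : (m : ℝ) ≤ 2 * d * q := by exact_mod_cast hmq
      rw [div_le_iff₀ hqR]
      have h6 : 2 * (d : ℝ) * (L / m) * q = L * ((2 * d * q) / m) := by
        field_simp
      rw [h6]
      have h7 : 1 ≤ (2 * d * q : ℝ) / m := by
        rw [le_div_iff₀ hmR]; linarith
      have hL : (0 : ℝ) ≤ L := by positivity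
      nlinarith
    calc ((F.card : ℕ) : ℝ) ≤ (L : ℝ) / q + 1 := h1
      _ ≤ 2 * d * (L / m) + 2 * d := by linarith
      _ = 2 * d * (L / m + 1) := by ring
  rw [hcard]
  push_cast
  calc ∑ g ∈ m.divisors, ((S.filter (fun n => G n = g)).card : ℝ)
      ≤ ∑ g ∈ m.divisors, 2 * (d : ℝ) * (L / m + 1) := Finset.sum_le_sum hfib
    _ = 2 * d * tau m * (L / m + 1) := by
      rw [Finset.sum_const, nsmul_eq_mul]
      unfold tau
      ring

/-- second moment of the divisor function along `n^2+d`. -/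
lemma second_moment (d X : ℕ) (hd : 1 ≤ d) :
    ∑ n ∈ Finset.Ioc X (X + X), (tau (n ^ 2 + d) : ℝ) ^ 2 ≤
      8 * d * (3 * X + d) * (1 + Real.log ((2 * X + d : ℕ) : ℝ)) ^ 32 := by
  classical
  set Z := 2 * X + d with hZ
  have h1 : ∀ n ∈ Finset.Ioc X (X + X), (tau (n ^ 2 + d) : ℝ) ^ 2 ≤
      ∑ m ∈ Finset.Icc 1 Z, if m ∣ n ^ 2 + d then 4 * (tau m : ℝ) ^ 4 else 0 := by
    intro n hn
    rw [Finset.mem_Ioc] at hn
    obtain ⟨m, hmd, hmm, ht⟩ := exists_small_divisor (n ^ 2 + d) (by omega)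
    have hm0 : 1 ≤ m := by
      rcases Nat.eq_zero_or_pos m with h | h
      · rw [h] at hmd
        have := Nat.eq_zero_of_zero_dvd hmd
        omega
      · exact h
    have hmZ : m ≤ Z := by
      by_contra hcon
      push Not at hcon
      have h2 : (Z + 1) * (Z + 1) ≤ m * m := Nat.mul_le_mul hcon hcon
      have h3 : n ^ 2 ≤ (X + X) ^ 2 := Nat.pow_le_pow_left hn.2 2
      rw [hZ] at h2
      nlinarith
    have h4 : (tau (n ^ 2 + d) : ℝ) ≤ 2 * (tau m : ℝ) ^ 2 := by exact_mod_cast ht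
    have h5 : (tau (n ^ 2 + d) : ℝ) ^ 2 ≤ 4 * (tau m : ℝ) ^ 4 := by
      calc (tau (n ^ 2 + d) : ℝ) ^ 2 ≤ (2 * (tau m : ℝ) ^ 2) ^ 2 :=
            pow_le_pow_left₀ (by positivity) h4 2
        _ = 4 * (tau m : ℝ) ^ 4 := by ring
    refine h5.trans ?_
    have h6 := Finset.single_le_sum
      (f := fun m => if m ∣ n ^ 2 + d then 4 * (tau m : ℝ) ^ 4 else 0)
      (s := Finset.Icc 1 Z) (by intro i _; positivity) (Finset.mem_Icc.mpr ⟨hm0, hmZ⟩)
    simp only [hmd, if_true] at h6
    exact h6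
  refine (Finset.sum_le_sum h1).trans ?_
  rw [Finset.sum_comm]
  have h2 : ∀ m ∈ Finset.Icc 1 Z, (∑ n ∈ Finset.Ioc X (X + X),
      if m ∣ n ^ 2 + d then 4 * (tau m : ℝ) ^ 4 else 0) ≤
      8 * d * (3 * X + d) * ((tau m : ℝ) ^ 5 / m) := by
    intro m hm
    rw [Finset.mem_Icc] at hm
    rw [← Finset.sum_filter, Finset.sum_const, nsmul_eq_mul]
    have h3 := card_dvd_sq_add d m X X hd hm.1
    have hmR : (0 : ℝ) < m := by exact_mod_cast hm.1
    have h4 : (X : ℝ) / m + 1 ≤ (3 * X + d) / m := by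
      rw [div_add_one hmR.ne', div_le_div_iff_of_pos_right hmR]
      have : (m : ℝ) ≤ 2 * X + d := by exact_mod_cast hm.2
      linarith
    calc (((Finset.Ioc X (X + X)).filter (fun n => m ∣ n ^ 2 + d)).card : ℝ) * (4 * (tau m : ℝ) ^ 4)
        ≤ (2 * d * tau m * (X / m + 1)) * (4 * (tau m : ℝ) ^ 4) :=
          mul_le_mul_of_nonneg_right h3 (by positivity)
      _ ≤ (2 * d * tau m * ((3 * X + d) / m)) * (4 * (tau m : ℝ) ^ 4) := by
          apply mul_le_mul_of_nonneg_right _ (by positivity)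
          exact mul_le_mul_of_nonneg_left h4 (by positivity)
      _ = 8 * d * (3 * X + d) * ((tau m : ℝ) ^ 5 / m) := by ring
  refine (Finset.sum_le_sum h2).trans ?_
  rw [← Finset.mul_sum]
  apply mul_le_mul_of_nonneg_left _ (by positivity)
  have := tsm_le 5 Z
  norm_num at this
  exact this

end H359R2
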