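import Pool.Agent.H359R2.Edges

/-! Descent along the chain of unimodular edges leading to a vector. -/

namespace H359R2

open Finset

/-- `w = (w1,w2)` is affected by `B` at level `Y`: it lies in the closed cone of an edge whose
scalar product is in `B`, at least `Y`, and whose vectors have norm at most that of `w`. -/
def Aff (d : ℕ) (B : Set ℕ) (Y w1 w2 : ℕ) : Prop :=
  ∃ a b c e p q : ℕ, a * e = b * c + 1 ∧ Y ≤ dt d a b c e ∧ dt d a b c e ∈ B ∧
    w1 = p * a + q * c ∧ w2 = p * b + q * e ∧ Nm d a b ≤ Nm d w1 w2 ∧ Nm d c e ≤ Nm d w1 w2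

lemma nm_mono {d a b a' b' : ℕ} (ha : a ≤ a') (hb : b ≤ b') : Nm d a b ≤ Nm d a' b' := by
  unfold Nm
  exact Nat.add_le_add (Nat.pow_le_pow_left ha 2) (Nat.mul_le_mul_left d (Nat.pow_le_pow_left hb 2))

lemma nm_smul (d k a b : ℕ) : Nm d (k * a) (k * b) = (k * k) * Nm d a b := by
  unfold Nm; ring

section two

variable {d : ℕ} {f : ℕ → ZMod 2}

lemma zmod2_add_self (x : ZMod 2) : x + x = 0 := by
  revert x; decide

lemma f_sq (hf : ∀ m n : ℕ, m ≠ 0 → n ≠ 0 → f (m * n) = f m + f n) {k n : ℕ} (hk : k ≠ 0)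
    (hn : n ≠ 0) : f ((k * k) * n) = f n := by
  rw [hf _ _ (Nat.mul_ne_zero hk hk) hn, hf _ _ hk hk, zmod2_add_self, zero_add]

/-- an edge whose scalar product gives the value `κ`. -/
lemma edge_val (hd : 1 ≤ d) (hf : ∀ m n : ℕ, m ≠ 0 → n ≠ 0 → f (m * n) = f m + f n)
    {B : Set ℕ} {κ : ZMod 2} (hB : ∀ n, n ∉ B → f (n ^ 2 + d) = κ)
    {Y w1 w2 : ℕ} (hw : ¬ Aff d B Y w1 w2) (a b c e p q : ℕ) (h : a * e = b * c + 1)
    (hY : Y ≤ dt d a b c e) (h1 : w1 = p * a + q * c) (h2 : w2 = p * b + q * e)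
    (hN1 : Nm d a b ≤ Nm d w1 w2) (hN2 : Nm d c e ≤ Nm d w1 w2) :
    f (Nm d a b) + f (Nm d c e) = κ := by
  have hnB : dt d a b c e ∉ B := by
    intro hmem
    exact hw ⟨a, b, c, e, p, q, h, hY, hmem, h1, h2, hN1, hN2⟩
  have := hB _ hnB
  rw [← nm_mul_nm d a b c e h, hf _ _ (nm_pos hd (edge_left_ne h)).ne'
    (nm_pos hd (edge_right_ne h)).ne'] at this
  exact this

lemma dt_add_right (d a b c e : ℕ) : dt d a b c e ≤ dt d a b (a + c) (b + e) := by
  unfold dt
  have : a * c + d * (b * e) + (a * a + d * (b * b)) = a * (a + c) + d * (b * (b + e)) := by ring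
  omega

lemma dt_add_left (d a b c e : ℕ) : dt d a b c e ≤ dt d (a + c) (b + e) c e := by
  unfold dt
  have : a * c + d * (b * e) + (c * c + d * (e * e)) = (a + c) * c + d * ((b + e) * e) := by ring
  omega

lemma le_mul_add_mul {p q a c : ℕ} (hp : 1 ≤ p) (hq : 1 ≤ q) : a + c ≤ p * a + q * c := by
  have h1 : 1 * a ≤ p * a := Nat.mul_le_mul_right _ hp
  have h2 : 1 * c ≤ q * c := Nat.mul_le_mul_right _ hq
  omega

/-- Descent, `κ = 0`. -/
lemma descent_zero (hd : 1 ≤ d) (hf : ∀ m n : ℕ, m ≠ 0 → n ≠ 0 → f (m * n) = f m + f n)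
    {B : Set ℕ} (hB : ∀ n, n ∉ B → f (n ^ 2 + d) = 0) {Y w1 w2 : ℕ} (hw : ¬ Aff d B Y w1 w2) :
    ∀ (k a b c e p q : ℕ), p + q ≤ k → a * e = b * c + 1 → Y ≤ dt d a b c e → 1 ≤ p → 1 ≤ q →
      w1 = p * a + q * c → w2 = p * b + q * e →
      f (Nm d w1 w2) = f (Nm d a b) ∧ f (Nm d a b) = f (Nm d c e) := by
  intro k
  induction k with
  | zero => intro a b c e p q hk; omega
  | succ k ih =>
    intro a b c e p q hk h hY hp hq h1 h2
    have hs1 : a + c ≤ w1 := by rw [h1]; exact le_mul_add_mul hp hq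
    have hs2 : b + e ≤ w2 := by rw [h2]; exact le_mul_add_mul hp hq
    have hNu : Nm d a b ≤ Nm d w1 w2 := nm_mono (by omega) (by omega)
    have hNv : Nm d c e ≤ Nm d w1 w2 := nm_mono (by omega) (by omega)
    have hNs : Nm d (a + c) (b + e) ≤ Nm d w1 w2 := nm_mono hs1 hs2
    have hval := edge_val hd hf hB hw a b c e p q h hY h1 h2 hNu hNv
    have huv : f (Nm d a b) = f (Nm d c e) := by
      generalize f (Nm d a b) = x at hval ⊢
      generalize f (Nm d c e) = y at hval ⊢
      revert x y; decide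
    refine ⟨?_, huv⟩
    have hr : a * (b + e) = b * (a + c) + 1 := by
      have : a * (b + e) = a * b + a * e := by ring
      rw [this, h]; ring
    have hl : (a + c) * e = (b + e) * c + 1 := by
      have : (a + c) * e = a * e + c * e := by ring
      rw [this, h]; ring
    rcases lt_trichotomy p q with hpq | hpq | hpq
    · -- w in the cone of (u+v, v)
      obtain ⟨r, hr', rfl⟩ : ∃ r, 1 ≤ r ∧ q = p + r := ⟨q - p, by omega, by omega⟩
      have := ih (a + c) (b + e) c e p r (by omega) hl (hY.trans (dt_add_left d a b c e)) hp hr'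
        (by rw [h1]; ring) (by rw [h2]; ring)
      rw [this.1, this.2, huv]
    · subst hpq
      have h3 := edge_val hd hf hB hw a b (a + c) (b + e) 0 p hr
        (hY.trans (dt_add_right d a b c e)) (by rw [h1]; ring) (by rw [h2]; ring) hNu hNs
      have h4 : f (Nm d w1 w2) = f (Nm d (a + c) (b + e)) := by
        have : Nm d w1 w2 = (p * p) * Nm d (a + c) (b + e) := by
          rw [← nm_smul, h1, h2]; ring_nf
        rw [this]
        exact f_sq hf (by omega) (nm_pos hd (by have := edge_left_ne h; omega)).ne'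
      rw [h4]
      generalize f (Nm d a b) = x at h3 ⊢
      generalize f (Nm d (a + c) (b + e)) = y at h3 ⊢
      revert x y; decide
    · obtain ⟨r, hr', rfl⟩ : ∃ r, 1 ≤ r ∧ p = q + r := ⟨p - q, by omega, by omega⟩
      have := ih a b (a + c) (b + e) r q (by omega) hr (hY.trans (dt_add_right d a b c e)) hr' hq
        (by rw [h1]; ring) (by rw [h2]; ring)
      rw [this.1]

/-- Descent, `κ = 1`: impossible. -/
lemma descent_one (hd : 1 ≤ d) (hf : ∀ m n : ℕ, m ≠ 0 → n ≠ 0 → f (m * n) = f m + f n)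
    {B : Set ℕ} (hB : ∀ n, n ∉ B → f (n ^ 2 + d) = 1) {Y w1 w2 : ℕ} (hw : ¬ Aff d B Y w1 w2) :
    ∀ (k a b c e p q : ℕ), p + q ≤ k → a * e = b * c + 1 → Y ≤ dt d a b c e → 1 ≤ p → 1 ≤ q →
      w1 = p * a + q * c → w2 = p * b + q * e → False := by
  intro k
  induction k with
  | zero => intro a b c e p q hk; omega
  | succ k ih =>
    intro a b c e p q hk h hY hp hq h1 h2
    have hs1 : a + c ≤ w1 := by rw [h1]; exact le_mul_add_mul hp hq
    have hs2 : b + e ≤ w2 := by rw [h2]; exact le_mul_add_mul hp hq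
    have hNu : Nm d a b ≤ Nm d w1 w2 := nm_mono (by omega) (by omega)
    have hNv : Nm d c e ≤ Nm d w1 w2 := nm_mono (by omega) (by omega)
    have hNs : Nm d (a + c) (b + e) ≤ Nm d w1 w2 := nm_mono hs1 hs2
    have hval := edge_val hd hf hB hw a b c e p q h hY h1 h2 hNu hNv
    have hr : a * (b + e) = b * (a + c) + 1 := by
      have : a * (b + e) = a * b + a * e := by ring
      rw [this, h]; ring
    have hl : (a + c) * e = (b + e) * c + 1 := by
      have : (a + c) * e = a * e + c * e := by ring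
      rw [this, h]; ring
    rcases lt_trichotomy p q with hpq | hpq | hpq
    · obtain ⟨r, hr', rfl⟩ : ∃ r, 1 ≤ r ∧ q = p + r := ⟨q - p, by omega, by omega⟩
      exact ih (a + c) (b + e) c e p r (by omega) hl (hY.trans (dt_add_left d a b c e)) hp hr'
        (by rw [h1]; ring) (by rw [h2]; ring)
    · subst hpq
      have h3 := edge_val hd hf hB hw a b (a + c) (b + e) 0 p hr
        (hY.trans (dt_add_right d a b c e)) (by rw [h1]; ring) (by rw [h2]; ring) hNu hNs
      have h4 := edge_val hd hf hB hw (a + c) (b + e) c e p 0 hl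
        (hY.trans (dt_add_left d a b c e)) (by rw [h1]; ring) (by rw [h2]; ring) hNs hNv
      generalize f (Nm d a b) = x at h3 hval
      generalize f (Nm d (a + c) (b + e)) = y at h3 h4
      generalize f (Nm d c e) = z at h4 hval
      revert x y z; decide
    · obtain ⟨r, hr', rfl⟩ : ∃ r, 1 ≤ r ∧ p = q + r := ⟨p - q, by omega, by omega⟩
      exact ih a b (a + c) (b + e) r q (by omega) hr (hY.trans (dt_add_right d a b c e)) hr' hq
        (by rw [h1]; ring) (by rw [h2]; ring)

/-- If `f(n^2+d)=0` for all large `n`, then for all `n`. -/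
lemma eventually_zero (hd : 1 ≤ d) (hf : ∀ m n : ℕ, m ≠ 0 → n ≠ 0 → f (m * n) = f m + f n)
    (K : ℕ) (hK : ∀ n, K ≤ n → f (n ^ 2 + d) = 0) : ∀ n, f (n ^ 2 + d) = 0 := by
  have key : ∀ j n, K ≤ n + j → f (n ^ 2 + d) = 0 := by
    intro j
    induction j with
    | zero => intro n h; exact hK n (by omega)
    | succ j ih =>
      intro n h
      have h1 := ih (n + 1) (by omega)
      have h2 := ih (n * (n + 1) + d) (by nlinarith)
      have h3 : (n * (n + 1) + d) ^ 2 + d = (n ^ 2 + d) * ((n + 1) ^ 2 + d) := by ring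
      rw [h3, hf _ _ (by omega) (by omega), h1, add_zero] at h2
      exact h2
  intro n
  exact key K n (by omega)

/-- `w` in the open quadrant is a positive combination of the root edge; if `f(n^2+d)=0`
for all `n` then `f` vanishes on all values of the form. -/
lemma all_zero (hd : 1 ≤ d) (hf : ∀ m n : ℕ, m ≠ 0 → n ≠ 0 → f (m * n) = f m + f n)
    (h0 : ∀ n, f (n ^ 2 + d) = 0) (a b : ℕ) (hab : ¬(a = 0 ∧ b = 0)) : f (Nm d a b) = 0 := by
  have h1 : f 1 = 0 := by
    have := hf 1 1 one_ne_zero one_ne_zero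
    simpa using this
  rcases Nat.eq_zero_or_pos a with ha | ha
  · have hb : 0 < b := by omega
    have : Nm d a b = (b * b) * (0 ^ 2 + d) := by unfold Nm; rw [ha]; ring
    rw [this, f_sq hf hb.ne' (by omega)]
    exact h0 0
  · rcases Nat.eq_zero_or_pos b with hb | hb
    · have : Nm d a b = (a * a) * 1 := by unfold Nm; rw [hb]; ring
      rw [this, f_sq hf ha.ne' one_ne_zero, h1]
    · have hw : ¬ Aff d (∅ : Set ℕ) 0 a b := by
        rintro ⟨_, _, _, _, _, _, _, _, h, _⟩
        exact h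
      have := descent_zero hd hf (B := ∅) (fun n _ => h0 n) hw (a + b) 1 0 0 1 a b le_rfl
        (by norm_num) (by omega) ha hb (by ring) (by ring)
      rw [this.1]
      have : Nm d 1 0 = 1 := by unfold Nm; ring
      rw [this, h1]

end two

/-- Two vectors not separated by a short vector lie in the open cone of a common edge with large
scalar product. -/
lemma common_edge (d Y : ℕ) (hd : 1 ≤ d) (x1 x2 y1 y2 : ℕ)
    (hxy : x2 * y1 < x1 * y2)
    (hsep : ∀ c1 c2 : ℕ, ¬(c1 = 0 ∧ c2 = 0) → Nm d c1 c2 ≤ Y ^ 2 + d →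
      ¬ (c1 * x2 ≤ c2 * x1 ∧ c2 * y1 ≤ c1 * y2)) :
    ∀ (k a b c e p q p' q' : ℕ), Y ≤ dt d a b c e + k → a * e = b * c + 1 →
      1 ≤ p → 1 ≤ q → 1 ≤ p' → 1 ≤ q' →
      x1 = p * a + q * c → x2 = p * b + q * e → y1 = p' * a + q' * c → y2 = p' * b + q' * e →
      ∃ a b c e p q p' q' : ℕ, Y ≤ dt d a b c e ∧ a * e = b * c + 1 ∧
        1 ≤ p ∧ 1 ≤ q ∧ 1 ≤ p' ∧ 1 ≤ q' ∧
        x1 = p * a + q * c ∧ x2 = p * b + q * e ∧ y1 = p' * a + q' * c ∧ y2 = p' * b + q' * e := by
  intro k
  induction k with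
  | zero =>
    intro a b c e p q p' q' hk h hp hq hp' hq' h1 h2 h3 h4
    exact ⟨a, b, c, e, p, q, p', q', by omega, h, hp, hq, hp', hq', h1, h2, h3, h4⟩
  | succ k ih =>
    intro a b c e p q p' q' hk h hp hq hp' hq' h1 h2 h3 h4
    by_cases hdone : Y ≤ dt d a b c e
    · exact ⟨a, b, c, e, p, q, p', q', hdone, h, hp, hq, hp', hq', h1, h2, h3, h4⟩
    push Not at hdone
    have hNu : 1 ≤ Nm d a b := nm_pos hd (edge_left_ne h)
    have hNv : 1 ≤ Nm d c e := nm_pos hd (edge_right_ne h)
    have hr : a * (b + e) = b * (a + c) + 1 := by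
      have : a * (b + e) = a * b + a * e := by ring
      rw [this, h]; ring
    have hl : (a + c) * e = (b + e) * c + 1 := by
      have : (a + c) * e = a * e + c * e := by ring
      rw [this, h]; ring
    have hmed : Nm d (a + c) (b + e) ≤ Y ^ 2 + d := by
      have hprod := nm_mul_nm d a b c e h
      have hsum : Nm d (a + c) (b + e) = Nm d a b + Nm d c e + 2 * dt d a b c e := by
        unfold Nm dt; ring
      have h5 : Nm d a b + Nm d c e ≤ Nm d a b * Nm d c e + 1 := by
        obtain ⟨s, hs⟩ : ∃ s, Nm d a b = s + 1 := ⟨Nm d a b - 1, by omega⟩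
        obtain ⟨t, ht⟩ : ∃ t, Nm d c e = t + 1 := ⟨Nm d c e - 1, by omega⟩
        rw [hs, ht]
        nlinarith
      have h6 : (dt d a b c e + 1) ^ 2 ≤ Y ^ 2 := Nat.pow_le_pow_left hdone 2
      nlinarith
    have hns := hsep (a + c) (b + e) (by have := edge_left_ne h; omega) hmed
    -- the determinant of x and y
    have hdet : q * p' < p * q' := by
      have h7 : x1 * y2 + q * p' = x2 * y1 + p * q' := by
        rw [h1, h2, h3, h4]
        zify at h ⊢
        linear_combination ((p : ℤ) * q' - q * p') * h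
      omega
    have hdr : dt d a b c e + 1 ≤ dt d a b (a + c) (b + e) := by
      have : dt d a b (a + c) (b + e) = dt d a b c e + Nm d a b := by unfold Nm dt; ring
      omega
    have hdl : dt d a b c e + 1 ≤ dt d (a + c) (b + e) c e := by
      have : dt d (a + c) (b + e) c e = dt d a b c e + Nm d c e := by unfold Nm dt; ring
      omega
    by_cases hA : q ≤ p
    · -- then need q' < p'
      have hx : (a + c) * x2 ≤ (b + e) * x1 := by
        have h8 : (b + e) * x1 + q = (a + c) * x2 + p := by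
          rw [h1, h2]
          zify at h ⊢
          linear_combination ((p : ℤ) - q) * h
        omega
      have hB : q' < p' := by
        by_contra hcon
        push Not at hcon
        apply hns
        refine ⟨hx, ?_⟩
        have h9 : (b + e) * y1 + q' = (a + c) * y2 + p' := by
          rw [h3, h4]
          zify at h ⊢
          linear_combination ((p' : ℤ) - q') * h
        omega
      have hC : q < p := by
        by_contra hcon
        have hpq : p = q := by omega
        subst hpq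
        have : p * q' < p * p' := Nat.mul_lt_mul_of_pos_left hB (by omega)
        omega
      obtain ⟨r, hr1, rfl⟩ : ∃ r, 1 ≤ r ∧ p = q + r := ⟨p - q, by omega, by omega⟩
      obtain ⟨r', hr1', rfl⟩ : ∃ r, 1 ≤ r ∧ p' = q' + r := ⟨p' - q', by omega, by omega⟩
      exact ih a b (a + c) (b + e) r q r' q' (by omega) hr hr1 hq hr1' hq'
        (by rw [h1]; ring) (by rw [h2]; ring) (by rw [h3]; ring) (by rw [h4]; ring)
    · push Not at hA
      have hB : p' < q' := by
        by_contra hcon
        push Not at hcon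
        have h10 : p * q' ≤ p * p' := Nat.mul_le_mul_left _ hcon
        have h11 : p * p' ≤ q * p' := Nat.mul_le_mul_right _ hA.le
        omega
      obtain ⟨r, hr1, rfl⟩ : ∃ r, 1 ≤ r ∧ q = p + r := ⟨q - p, by omega, by omega⟩
      obtain ⟨r', hr1', rfl⟩ : ∃ r, 1 ≤ r ∧ q' = p' + r := ⟨q' - p', by omega, by omega⟩
      exact ih (a + c) (b + e) c e p r p' r' (by omega) hl hp hr1 hp' hr1'
        (by rw [h1]; ring) (by rw [h2]; ring) (by rw [h3]; ring) (by rw [h4]; ring)

end H359R2
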