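import Pool.Agent.H359R2.Tau

/-! Unimodular pairs of vectors and the form `x^2 + d y^2`. -/

namespace H359R2

open Finset

/-- the form -/
def Nm (d a b : ℕ) : ℕ := a ^ 2 + d * b ^ 2

/-- the associated scalar product -/
def dt (d a b c e : ℕ) : ℕ := a * c + d * (b * e)

lemma nm_mul_nm (d a b c e : ℕ) (h : a * e = b * c + 1) :
    Nm d a b * Nm d c e = dt d a b c e ^ 2 + d := by
  unfold Nm dt
  zify at h ⊢
  have h2 : (d : ℤ) = d * (a * e - b * c) ^ 2 := by rw [h]; ring
  linear_combination (-1 : ℤ) * h2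

lemma nm_pos {d a b : ℕ} (hd : 1 ≤ d) (h : ¬(a = 0 ∧ b = 0)) : 0 < Nm d a b := by
  unfold Nm
  rcases Nat.eq_zero_or_pos a with ha | ha
  · have hb : 0 < b := by
      rcases Nat.eq_zero_or_pos b with hb | hb
      · exact absurd ⟨ha, hb⟩ h
      · exact hb
    positivity
  · positivity

/-- first vector of an edge is non-zero -/
lemma edge_left_ne {a b c e : ℕ} (h : a * e = b * c + 1) : ¬(a = 0 ∧ b = 0) := by
  rintro ⟨rfl, rfl⟩
  simp at h

lemma edge_right_ne {a b c e : ℕ} (h : a * e = b * c + 1) : ¬(c = 0 ∧ e = 0) := by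
  rintro ⟨rfl, rfl⟩
  simp at h

lemma edge_unique_int (d n a b c e a' b' c' e' D : ℤ) (hd : 1 ≤ d)
    (ha : 0 ≤ a) (hb : 0 ≤ b) (hc : 0 ≤ c) (ha' : 0 ≤ a') (hb' : 0 ≤ b') (hc' : 0 ≤ c')
    (h : a * e = b * c + 1) (h' : a' * e' = b' * c' + 1)
    (hn : a * c + d * (b * e) = n) (hn' : a' * c' + d * (b' * e') = n)
    (hD : D = a ^ 2 + d * b ^ 2) (hD' : D = a' ^ 2 + d * b' ^ 2) (hDpos : 0 < D) :
    a = a' ∧ b = b' ∧ c = c' ∧ e = e' := by
  have hcop : IsCoprime a b := ⟨e, -c, by linarith⟩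
  have hcop' : IsCoprime a' b' := ⟨e', -c', by linarith⟩
  -- v is determined by u
  have e1 : a + b * n = D * e := by rw [← hn, hD]; linear_combination (-a) * h
  have e2 : a * n - d * b = D * c := by rw [← hn, hD]; linear_combination (d * b) * h
  have e1' : a' + b' * n = D * e' := by rw [← hn', hD']; linear_combination (-a') * h'
  have e2' : a' * n - d * b' = D * c' := by
    rw [← hn', hD']; linear_combination (d * b') * h'
  have hdiv : D ∣ a * b' - a' * b :=
    ⟨e * b' - e' * b, by linear_combination b' * e1 - b * e1'⟩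
  have hid : (a * a' + d * (b * b')) ^ 2 + d * (a * b' - a' * b) ^ 2 = D ^ 2 := by
    have : D ^ 2 = (a ^ 2 + d * b ^ 2) * (a' ^ 2 + d * b' ^ 2) := by rw [← hD, ← hD']; ring
    rw [this]; ring
  have haa0 : 0 ≤ a * a' := mul_nonneg ha ha'
  have hbb0 : 0 ≤ b * b' := mul_nonneg hb hb'
  have hbc0 : 0 ≤ b * c := mul_nonneg hb hc
  have hbc0' : 0 ≤ b' * c' := mul_nonneg hb' hc'
  have hcross : a * b' - a' * b = 0 := by
    by_contra hne
    obtain ⟨t, ht⟩ := hdiv
    have ht0 : t ≠ 0 := by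
      rintro rfl
      apply hne; rw [ht, mul_zero]
    have ht2 : 1 ≤ t ^ 2 := by
      have : 0 < t ^ 2 := by positivity
      omega
    rw [ht] at hid
    have hD2 : 0 < D ^ 2 := by positivity
    have hS2 : (a * a' + d * (b * b')) ^ 2 = D ^ 2 * (1 - d * t ^ 2) := by
      linear_combination hid
    have hdt : 1 ≤ d * t ^ 2 := by nlinarith
    have hS3 : (a * a' + d * (b * b')) ^ 2 = 0 := by
      have h1 : D ^ 2 * (1 - d * t ^ 2) ≤ 0 := by nlinarith
      have h2 : 0 ≤ (a * a' + d * (b * b')) ^ 2 := by positivity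
      linarith
    have hS0 : a * a' + d * (b * b') = 0 := pow_eq_zero_iff (two_ne_zero) |>.mp hS3
    have hdbb : 0 ≤ d * (b * b') := mul_nonneg (by linarith) hbb0
    have haa : a * a' = 0 := by linarith
    rcases mul_eq_zero.mp haa with h1 | h1
    · rw [h1] at h; linarith
    · rw [h1] at h'; linarith
  -- a b' = a' b with coprime entries
  have hda : a ∣ a' := hcop.dvd_of_dvd_mul_right (⟨b', by linarith⟩ : a ∣ a' * b)
  have hda' : a' ∣ a := hcop'.dvd_of_dvd_mul_right (⟨b, by linarith⟩ : a' ∣ a * b')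
  have haeq : a = a' := Int.dvd_antisymm ha ha' hda hda'
  have ha0 : a ≠ 0 := by
    rintro rfl
    linarith
  subst haeq
  have hbeq : b = b' := by
    have : a * (b' - b) = 0 := by linarith
    rcases mul_eq_zero.mp this with h1 | h1
    · exact absurd h1 ha0
    · linarith
  subst hbeq
  have hDne : D ≠ 0 := hDpos.ne'
  have heeq : e = e' := mul_left_cancel₀ hDne (by linarith)
  have hceq : c = c' := mul_left_cancel₀ hDne (by linarith)
  exact ⟨rfl, rfl, hceq, heeq⟩

/-- Edges with given scalar product and given norm of the left vector coincide. -/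
lemma edge_unique (d n : ℕ) (hd : 1 ≤ d) (a b c e a' b' c' e' : ℕ)
    (h : a * e = b * c + 1) (h' : a' * e' = b' * c' + 1)
    (hn : dt d a b c e = n) (hn' : dt d a' b' c' e' = n)
    (hN : Nm d a b = Nm d a' b') : a = a' ∧ b = b' ∧ c = c' ∧ e = e' := by
  have hpos : 0 < Nm d a b := nm_pos hd (edge_left_ne h)
  unfold Nm at hN hpos
  unfold dt at hn hn'
  have := edge_unique_int d n a b c e a' b' c' e' ((a ^ 2 + d * b ^ 2 : ℕ) : ℤ)
    (by exact_mod_cast hd) (by positivity) (by positivity) (by positivity) (by positivity)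
    (by positivity) (by positivity) (by exact_mod_cast h) (by exact_mod_cast h')
    (by exact_mod_cast hn) (by exact_mod_cast hn') (by push_cast; ring)
    (by exact_mod_cast hN) (by exact_mod_cast hpos)
  obtain ⟨h1, h2, h3, h4⟩ := this
  exact ⟨by exact_mod_cast h1, by exact_mod_cast h2, by exact_mod_cast h3, by exact_mod_cast h4⟩

/-- Any finite set of edges with scalar product `n` has at most `tau (n^2+d)` elements. -/
lemma edges_card_le (d n : ℕ) (hd : 1 ≤ d) (S : Finset (ℕ × ℕ × ℕ × ℕ))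
    (hS : ∀ x ∈ S, x.1 * x.2.2.2 = x.2.1 * x.2.2.1 + 1 ∧
      dt d x.1 x.2.1 x.2.2.1 x.2.2.2 = n) : S.card ≤ tau (n ^ 2 + d) := by
  classical
  unfold tau
  apply Finset.card_le_card_of_injOn (fun x => Nm d x.1 x.2.1)
  · intro x hx
    have hx' := hS x hx
    simp only [Finset.mem_coe, Nat.mem_divisors]
    refine ⟨⟨Nm d x.2.2.1 x.2.2.2, ?_⟩, by omega⟩
    rw [nm_mul_nm d _ _ _ _ hx'.1, hx'.2]
  · intro x hx y hy hxy
    have hx' := hS x hx
    have hy' := hS y hy
    have := edge_unique d n hd _ _ _ _ _ _ _ _ hx'.1 hy'.1 hx'.2 hy'.2 hxy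
    obtain ⟨h1, h2, h3, h4⟩ := this
    exact Prod.ext h1 (Prod.ext h2 (Prod.ext h3 h4))

end H359R2
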