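import Pool.Agent.H359R2.AffCount

/-! Separation count and the geometric lemma. -/

namespace H359R2

open Finset

/-- a short vector separates `x` from its rotation -/
def Sep (d Y G1 G2 : ℕ) (x : ℕ × ℕ) : Prop :=
  ∃ c1 c2 : ℕ, ¬(c1 = 0 ∧ c2 = 0) ∧ Nm d c1 c2 ≤ Y ^ 2 + d ∧
    c1 * x.2 ≤ c2 * x.1 ∧ c2 * r1 d G1 G2 x ≤ c1 * r2 G1 G2 x

open Classical in
lemma sep_count (d Y : ℕ) (hd : 1 ≤ d) (ε : ℝ) (hε : 0 < ε) :
    ∃ M0 : ℕ, 3 + d ≤ M0 ∧ ∀ G1 G2 : ℕ, 1 ≤ G2 → M0 * G2 ≤ G1 → ∃ R0 : ℕ, ∀ R, R0 ≤ R →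
      (((TT R).filter (fun x => Sep d Y G1 G2 x)).card : ℝ) ≤ ε * R ^ 2 := by
  set K := Y ^ 2 + d with hK
  have hKpos : (0 : ℝ) < K := by
    have : 0 < K := by omega
    exact_mod_cast this
  set C : ℝ := (K + 1) ^ 2 with hC
  have hCpos : 0 < C := by positivity
  set M0 := max (3 + d) (⌈2 * C * ((1 + d) * K) / ε⌉₊ + 1) with hM0
  have hM0pos : (0 : ℝ) < M0 := by
    have : 0 < M0 := by omega
    exact_mod_cast this
  have hM0ge : 2 * C * ((1 + d) * K) / ε ≤ M0 := by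
    calc 2 * C * ((1 + d) * K) / ε ≤ (⌈2 * C * ((1 + d) * K) / ε⌉₊ : ℝ) := Nat.le_ceil _
      _ ≤ M0 := by
        have : ⌈2 * C * ((1 + d) * K) / ε⌉₊ ≤ M0 := by omega
        exact_mod_cast this
  refine ⟨M0, le_max_left _ _, ?_⟩
  intro G1 G2 hG2 hG
  have hG' : (3 + d) * G2 ≤ G1 :=
    (Nat.mul_le_mul_right _ (le_max_left _ _)).trans hG
  have hG1 : 1 ≤ G1 := by nlinarith
  refine ⟨⌈2 * C / ε⌉₊ + 1, ?_⟩
  intro R hR
  have hRC : 2 * C / ε ≤ R := by
    calc 2 * C / ε ≤ (⌈2 * C / ε⌉₊ : ℝ) := Nat.le_ceil _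
      _ ≤ R := by exact_mod_cast (by omega : ⌈2 * C / ε⌉₊ ≤ R)
  -- the pieces
  let S : ℕ × ℕ → Finset (ℕ × ℕ) := fun c => (TT R).filter
    (fun x => c.1 * x.2 ≤ c.2 * x.1 ∧ c.2 * r1 d G1 G2 x ≤ c.1 * r2 G1 G2 x)
  set J := Finset.Icc 1 K ×ˢ Finset.range (K + 1) with hJ
  have hsub : (TT R).filter (fun x => Sep d Y G1 G2 x) ⊆ J.biUnion S := by
    intro x hx
    rw [Finset.mem_filter] at hx
    obtain ⟨hxT, c1, c2, hne, hN, h1, h2⟩ := hx
    rw [Finset.mem_biUnion]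
    refine ⟨(c1, c2), ?_, ?_⟩
    · rw [hJ, Finset.mem_product, Finset.mem_Icc, Finset.mem_range]
      have hc1 : 1 ≤ c1 := by
        rcases Nat.eq_zero_or_pos c1 with h0 | h0
        · exfalso
          have hc2 : 1 ≤ c2 := by omega
          rw [h0, zero_mul] at h2
          have h3 := r2_lt_r1 hG' hG1 hxT
          have h4 : 1 * 1 ≤ c2 * r1 d G1 G2 x := Nat.mul_le_mul hc2 (by omega)
          omega
        · exact h0
      unfold Nm at hN
      have h5 : c1 ≤ c1 ^ 2 := by nlinarith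
      have h6 : c2 ≤ d * c2 ^ 2 := by
        rcases Nat.eq_zero_or_pos c2 with h0 | h0
        · rw [h0]; omega
        · have : c2 * 1 ≤ c2 * c2 := Nat.mul_le_mul_left _ h0
          nlinarith
      simp only
      omega
    · rw [Finset.mem_filter]
      exact ⟨hxT, h1, h2⟩
  have hS : ∀ c ∈ J, ((S c).card : ℝ) ≤ R * (((1 + d) * K * R) / M0 + 1) := by
    intro c hc
    rw [hJ, Finset.mem_product, Finset.mem_Icc, Finset.mem_range] at hc
    have hnat : (S c).card ≤ R * ((1 + d) * K * R / M0 + 1) := by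
      let φ : ℕ × ℕ → ℕ × ℕ := fun x => (x.1, c.2 * x.1 - c.1 * x.2)
      have hinj : Set.InjOn φ (S c : Set (ℕ × ℕ)) := by
        intro x hx y hy hxy
        rw [Finset.mem_coe, Finset.mem_filter] at hx hy
        have hxy1 : x.1 = y.1 := (Prod.mk.inj hxy).1
        have hxy2 : c.2 * x.1 - c.1 * x.2 = c.2 * y.1 - c.1 * y.2 := (Prod.mk.inj hxy).2
        have h3 := hx.2.1
        have h4 := hy.2.1
        rw [hxy1] at hxy2 h3
        have h5 : c.1 * x.2 = c.1 * y.2 := by omega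
        have h6 : x.2 = y.2 := Nat.eq_of_mul_eq_mul_left (by omega) h5
        exact Prod.ext hxy1 h6
      have himg : (S c).image φ ⊆ Finset.Icc 1 R ×ˢ Finset.range ((1 + d) * K * R / M0 + 1) := by
        intro z hz
        rw [Finset.mem_image] at hz
        obtain ⟨x, hx, rfl⟩ := hz
        rw [Finset.mem_filter] at hx
        obtain ⟨hxT, h1, h2⟩ := hx
        have hr := r1_add hG' hxT
        rw [mem_TT] at hxT
        rw [Finset.mem_product, Finset.mem_Icc, Finset.mem_range, Nat.lt_succ_iff,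
          Nat.le_div_iff_mul_le (by omega)]
        refine ⟨⟨hxT.1, hxT.2.1⟩, ?_⟩
        simp only [φ]
        obtain ⟨k, hk⟩ : ∃ k, c.2 * x.1 = c.1 * x.2 + k := ⟨c.2 * x.1 - c.1 * x.2, by omega⟩
        have hk' : c.2 * x.1 - c.1 * x.2 = k := by omega
        rw [hk']
        have h7 : G1 * k ≤ G2 * (c.1 * x.1 + d * (c.2 * x.2)) := by
          unfold r2 at h2
          zify at h2 hr hk ⊢
          have h8 : (r1 d G1 G2 x : ℤ) = G1 * x.1 - d * (G2 * x.2) := by linarith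
          rw [h8] at h2
          have h9 : (k : ℤ) = c.2 * x.1 - c.1 * x.2 := by linarith
          rw [h9]
          nlinarith
        have h10 : c.1 * x.1 + d * (c.2 * x.2) ≤ (1 + d) * K * R := by
          have e1 : c.1 * x.1 ≤ K * R := Nat.mul_le_mul hc.1.2 hxT.2.1
          have e2 : c.2 * x.2 ≤ K * R := Nat.mul_le_mul (by omega) (by omega)
          have e3 : d * (c.2 * x.2) ≤ d * (K * R) := Nat.mul_le_mul_left _ e2
          nlinarith
        have h11 : (M0 * k) * G2 ≤ ((1 + d) * K * R) * G2 := by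
          calc (M0 * k) * G2 = (M0 * G2) * k := by ring
            _ ≤ G1 * k := Nat.mul_le_mul_right _ hG
            _ ≤ G2 * (c.1 * x.1 + d * (c.2 * x.2)) := h7
            _ ≤ G2 * ((1 + d) * K * R) := Nat.mul_le_mul_left _ h10
            _ = _ := by ring
        have h12 := Nat.le_of_mul_le_mul_right h11 (by omega)
        linarith
      calc (S c).card = ((S c).image φ).card := (Finset.card_image_of_injOn hinj).symm
        _ ≤ (Finset.Icc 1 R ×ˢ Finset.range ((1 + d) * K * R / M0 + 1)).card :=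
            Finset.card_le_card himg
        _ = R * ((1 + d) * K * R / M0 + 1) := by
          rw [Finset.card_product, Nat.card_Icc, Finset.card_range]; simp
    calc ((S c).card : ℝ) ≤ ((R * ((1 + d) * K * R / M0 + 1) : ℕ) : ℝ) := by exact_mod_cast hnat
      _ = R * ((((1 + d) * K * R / M0 : ℕ) : ℝ) + 1) := by push_cast; ring
      _ ≤ R * ((((1 + d) * K * R : ℕ) : ℝ) / M0 + 1) := by
        apply mul_le_mul_of_nonneg_left _ (by positivity)
        have := @Nat.cast_div_le ℝ _ _ _ ((1 + d) * K * R) M0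
        linarith
      _ = _ := by push_cast; ring
  have hJcard : ((J.card : ℕ) : ℝ) ≤ C := by
    rw [hJ, Finset.card_product, Nat.card_Icc, Finset.card_range, hC]
    rw [Nat.add_sub_cancel]
    push_cast
    nlinarith
  calc (((TT R).filter (fun x => Sep d Y G1 G2 x)).card : ℝ)
      ≤ ((J.biUnion S).card : ℝ) := by exact_mod_cast Finset.card_le_card hsub
    _ ≤ ∑ c ∈ J, ((S c).card : ℝ) := by exact_mod_cast Finset.card_biUnion_le
    _ ≤ ∑ c ∈ J, (R * (((1 + d) * K * R) / M0 + 1) : ℝ) := Finset.sum_le_sum hS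
    _ = (J.card : ℝ) * (R * (((1 + d) * K * R) / M0 + 1)) := by
        rw [Finset.sum_const, nsmul_eq_mul]
    _ ≤ C * (R * (((1 + d) * K * R) / M0 + 1)) := mul_le_mul_of_nonneg_right hJcard (by positivity)
    _ = (C * ((1 + d) * K) / M0) * R ^ 2 + C * R := by ring
    _ ≤ (ε / 2) * R ^ 2 + (ε / 2) * R ^ 2 := by
        have h1 : C * ((1 + d) * K) / M0 ≤ ε / 2 := by
          rw [div_le_iff₀ hε] at hM0ge
          rw [div_le_iff₀ hM0pos]
          nlinarith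
        have h2 : C * R ≤ (ε / 2) * R ^ 2 := by
          rw [div_le_iff₀ hε] at hRC
          have : (0 : ℝ) ≤ R := by positivity
          nlinarith
        have h3 : (C * ((1 + d) * K) / M0) * (R : ℝ) ^ 2 ≤ (ε / 2) * R ^ 2 :=
          mul_le_mul_of_nonneg_right h1 (by positivity)
        linarith
    _ = ε * R ^ 2 := by ring

/-- good points -/
def Good (d : ℕ) (B : Set ℕ) (Y G1 G2 : ℕ) (x : ℕ × ℕ) : Prop :=
  ¬ Aff d B Y x.1 x.2 ∧ ¬ Aff d B Y (r1 d G1 G2 x) (r2 G1 G2 x) ∧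
  ∃ a b c e p q p' q' : ℕ, Y ≤ dt d a b c e ∧ a * e = b * c + 1 ∧
        1 ≤ p ∧ 1 ≤ q ∧ 1 ≤ p' ∧ 1 ≤ q' ∧
        x.1 = p * a + q * c ∧ x.2 = p * b + q * e ∧
        r1 d G1 G2 x = p' * a + q' * c ∧ r2 G1 G2 x = p' * b + q' * e

open Classical in
lemma good_count (d : ℕ) (hd : 1 ≤ d) (B : Set ℕ) (hsum : Summable (wt d B)) (ε : ℝ)
    (hε : 0 < ε) : ∃ Y M0 : ℕ, 1 ≤ Y ∧ 3 + d ≤ M0 ∧ ∀ G1 G2 : ℕ, 1 ≤ G2 → M0 * G2 ≤ G1 →
      ∃ R0 : ℕ, ∀ R, R0 ≤ R →
        (((TT R).filter (fun x => ¬ Good d B Y G1 G2 x)).card : ℝ) ≤ ε * R ^ 2 := by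
  obtain ⟨Y, hY1, hY⟩ := aff_count d hd B hsum (ε / 3) (by positivity)
  obtain ⟨M0, hM0, hsep⟩ := sep_count d Y hd (ε / 3) (by positivity)
  refine ⟨Y, M0, hY1, hM0, ?_⟩
  intro G1 G2 hG2 hG
  have hG' : (3 + d) * G2 ≤ G1 := (Nat.mul_le_mul_right _ hM0).trans hG
  have hG1 : 1 ≤ G1 := by nlinarith
  obtain ⟨Ra, hRa⟩ := hY Y le_rfl 1 0 le_rfl (by omega)
  obtain ⟨Rb, hRb⟩ := hY Y le_rfl G1 G2 hG1 hG'
  obtain ⟨Rc, hRc⟩ := hsep G1 G2 hG2 hG
  refine ⟨max Ra (max Rb Rc), ?_⟩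
  intro R hR
  have h1 := hRa R (by omega)
  have h2 := hRb R (by omega)
  have h3 := hRc R (by omega)
  have hsub : (TT R).filter (fun x => ¬ Good d B Y G1 G2 x) ⊆
      ((TT R).filter (fun x => Aff d B Y (r1 d 1 0 x) (r2 1 0 x))) ∪
      (((TT R).filter (fun x => Aff d B Y (r1 d G1 G2 x) (r2 G1 G2 x))) ∪
      ((TT R).filter (fun x => Sep d Y G1 G2 x))) := by
    intro x hx
    rw [Finset.mem_filter] at hx
    obtain ⟨hxT, hg⟩ := hx
    rw [Finset.mem_union, Finset.mem_union, Finset.mem_filter, Finset.mem_filter,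
      Finset.mem_filter]
    by_contra hcon
    push Not at hcon
    obtain ⟨k1, k2, k3⟩ := hcon
    have e1 : r1 d 1 0 x = x.1 := by unfold r1; simp
    have e2 : r2 1 0 x = x.2 := by unfold r2; simp
    have n1 := k1 hxT
    rw [e1, e2] at n1
    have n2 := k2 hxT
    have n3 := k3 hxT
    apply hg
    refine ⟨n1, n2, ?_⟩
    have hr := r1_add hG' hxT
    have hlt := r2_lt_r1 hG' hG1 hxT
    have hr2p := r2_pos (G2 := G2) hG1 hxT
    have hxT' := hxT
    rw [mem_TT] at hxT'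
    have hcr : x.2 * r1 d G1 G2 x < x.1 * r2 G1 G2 x := by
      have h8 : x.1 * r2 G1 G2 x = x.2 * r1 d G1 G2 x + G2 * Nm d x.1 x.2 := by
        unfold r2 Nm
        zify at hr ⊢
        linear_combination (-(x.2 : ℤ)) * hr
      have h9 : 0 < G2 * Nm d x.1 x.2 := Nat.mul_pos hG2 (nm_pos hd (by omega))
      omega
    apply common_edge d Y hd x.1 x.2 (r1 d G1 G2 x) (r2 G1 G2 x) hcr ?_ Y 1 0 0 1 x.1 x.2
      (r1 d G1 G2 x) (r2 G1 G2 x) (by omega) (by norm_num) hxT'.1 hxT'.2.2.1 (by omega) hr2p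
      (by ring) (by ring) (by ring) (by ring)
    intro c1 c2 hne hN hcon
    exact n3 ⟨c1, c2, hne, hN, hcon.1, hcon.2⟩
  have hc : (((TT R).filter (fun x => ¬ Good d B Y G1 G2 x)).card : ℝ) ≤
      (((TT R).filter (fun x => Aff d B Y (r1 d 1 0 x) (r2 1 0 x))).card : ℝ) +
      ((((TT R).filter (fun x => Aff d B Y (r1 d G1 G2 x) (r2 G1 G2 x))).card : ℝ) +
      (((TT R).filter (fun x => Sep d Y G1 G2 x)).card : ℝ)) := by
    have := (Finset.card_le_card hsub).trans ((Finset.card_union_le _ _).trans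
      (Nat.add_le_add_left (Finset.card_union_le _ _) _))
    exact_mod_cast this
  linarith

/-- the triangle has many points -/
lemma TT_card (r : ℕ) : 2 * r ^ 2 ≤ (TT (4 * r)).card := by
  have hsub : Finset.Ioc (2 * r) (4 * r) ×ˢ Finset.Icc 1 r ⊆ TT (4 * r) := by
    intro x hx
    rw [Finset.mem_product, Finset.mem_Ioc, Finset.mem_Icc] at hx
    rw [mem_TT]
    omega
  have := Finset.card_le_card hsub
  rw [Finset.card_product, Nat.card_Ioc, Nat.card_Icc] at this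
  have h2 : (4 * r - 2 * r) * (r + 1 - 1) = 2 * r ^ 2 := by
    have : 4 * r - 2 * r = 2 * r := by omega
    rw [this]; simp; ring
  omega

lemma exists_good (d : ℕ) (hd : 1 ≤ d) (B : Set ℕ) (hsum : Summable (wt d B)) :
    ∃ Y M0 : ℕ, 1 ≤ Y ∧ 3 + d ≤ M0 ∧ ∀ G1 G2 : ℕ, 1 ≤ G2 → M0 * G2 ≤ G1 →
      ∃ x : ℕ × ℕ, 1 ≤ x.1 ∧ 1 ≤ x.2 ∧
        Nm d (r1 d G1 G2 x) (r2 G1 G2 x) = Nm d G1 G2 * Nm d x.1 x.2 ∧ Good d B Y G1 G2 x := by
  classical
  obtain ⟨Y, M0, hY, hM0, hG⟩ := good_count d hd B hsum (1 / 16) (by norm_num)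
  refine ⟨Y, M0, hY, hM0, ?_⟩
  intro G1 G2 hG2 hG12
  have hG' : (3 + d) * G2 ≤ G1 := (Nat.mul_le_mul_right _ hM0).trans hG12
  obtain ⟨R0, hR0⟩ := hG G1 G2 hG2 hG12
  have h1 := hR0 (4 * (R0 + 1)) (by omega)
  have h2 := TT_card (R0 + 1)
  by_contra hcon
  push Not at hcon
  have hall : (TT (4 * (R0 + 1))).filter (fun x => ¬ Good d B Y G1 G2 x) = TT (4 * (R0 + 1)) := by
    apply Finset.filter_true_of_mem
    intro x hx
    have hx' := hx
    rw [mem_TT] at hx'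
    exact hcon x hx'.1 hx'.2.2.1 (nm_rot hG' hx)
  rw [hall] at h1
  have h3 : (2 * (R0 + 1) ^ 2 : ℝ) ≤ ((TT (4 * (R0 + 1))).card : ℝ) := by exact_mod_cast h2
  have h4 : (0 : ℝ) < ((R0 : ℝ) + 1) ^ 2 := by positivity
  push_cast at h1
  nlinarith

end H359R2
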