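import Pool.Agent.H359R2.NearSqf

/-! Main theorem for `n^2+1`. -/

namespace H359R2

open Finset

open Classical in
/-- number of prime factors in `S`, with multiplicity, modulo two -/
noncomputable def fS (S : Set ℕ) (n : ℕ) : ZMod 2 :=
  n.factorization.sum (fun p k => if p ∈ S then (k : ZMod 2) else 0)

lemma fS_mul (S : Set ℕ) (m n : ℕ) (hm : m ≠ 0) (hn : n ≠ 0) : fS S (m * n) = fS S m + fS S n := by
  classical
  unfold fS
  rw [Nat.factorization_mul hm hn]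
  apply Finsupp.sum_add_index'
  · intro p; simp
  · intro p a b
    by_cases h : p ∈ S
    · simp [h]
    · simp [h]

lemma fS_prime {S : Set ℕ} {p : ℕ} (hp : p.Prime) (hpS : p ∈ S) : fS S p = 1 := by
  classical
  unfold fS
  rw [hp.factorization, Finsupp.sum_single_index]
  · simp [hpS]
  · simp

lemma fS_squarefree {S : Set ℕ} {m : ℕ} (hm : Squarefree m) :
    fS S m = ((Set.ncard {p : ℕ | p.Prime ∧ p ∣ m ∧ p ∈ S} : ℕ) : ZMod 2) := by
  classical
  have h0 := hm.ne_zero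
  have hset : {p : ℕ | p.Prime ∧ p ∣ m ∧ p ∈ S} = ↑(m.primeFactors.filter (fun p => p ∈ S)) := by
    ext p
    simp only [Set.mem_ofPred_eq, Finset.coe_filter, Nat.mem_primeFactors]
    tauto
  rw [hset, Set.ncard_coe_finset]
  unfold fS Finsupp.sum
  rw [Nat.support_factorization, Finset.card_filter]
  push_cast
  apply Finset.sum_congr rfl
  intro p hp
  rw [Nat.mem_primeFactors] at hp
  rw [Nat.factorization_eq_one_of_squarefree hm hp.1 hp.2.1]
  simp

lemma odd_of_cast_ne_zero {k : ℕ} (h : ((k : ℕ) : ZMod 2) ≠ 0) : Odd k := by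
  rcases Nat.even_or_odd k with he | ho
  · exfalso
    apply h
    rw [ZMod.natCast_eq_zero_iff]
    exact he.two_dvd
  · exact ho

/-- the good `n` -/
def GN (S : Set ℕ) (X : ℕ) : Set ℕ :=
  {n : ℕ | X < n ∧ n ≤ 2 * X ∧ ∃ s m : ℕ, n ^ 2 + 1 = s ^ 2 * m ∧ Squarefree m ∧
      (s : ℝ) ≤ Real.log X ^ 41 ∧ Odd (Set.ncard {p : ℕ | p.Prime ∧ p ∣ m ∧ p ∈ S})}

lemma GN_finite (S : Set ℕ) (X : ℕ) : (GN S X).Finite := by
  apply Set.Finite.subset (Set.finite_Icc 0 (2 * X))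
  intro n hn
  exact ⟨Nat.zero_le _, hn.2.1⟩

lemma cnt_le (S : Set ℕ) (X Z : ℕ) (hX : 3 ≤ X) :
    (cnt {n | fS S (n ^ 2 + 1) ≠ 0} X : ℝ) ≤ ((GN S X).ncard : ℝ) +
      (2 * X * (1 + Real.log Z) ^ 4 / (Real.log X ^ 41) + 2 * Z * (1 + Real.log Z) ^ 4 +
        10 * (X : ℝ) ^ 2 / (Z + 1) ^ 2) := by
  classical
  have hlog : 0 < Real.log X := Real.log_pos (by exact_mod_cast (by omega : 1 < X))
  have h1 := card_large_square X Z (Real.log X ^ 41) (by omega) (by positivity)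
  set L := (Finset.Ioc X (X + X)).filter (fun n => ∃ s : ℕ, Real.log X ^ 41 < s ∧ s ^ 2 ∣ n ^ 2 + 1)
    with hL
  have hsub : (Finset.Ioc X (X + X)).filter (fun n => n ∈ {n | fS S (n ^ 2 + 1) ≠ 0}) ⊆
      (GN_finite S X).toFinset ∪ L := by
    intro n hn
    rw [Finset.mem_filter, Finset.mem_Ioc, Set.mem_ofPred_eq] at hn
    obtain ⟨⟨hn1, hn2⟩, hf⟩ := hn
    obtain ⟨m, s, hms, hm⟩ := Nat.sq_mul_squarefree (n ^ 2 + 1)
    rw [Finset.mem_union, Set.Finite.mem_toFinset]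
    have hs0 : s ≠ 0 := by
      rintro rfl
      simp at hms
    by_cases hs : (s : ℝ) ≤ Real.log X ^ 41
    · left
      refine ⟨hn1, by omega, s, m, hms.symm, hm, hs, ?_⟩
      apply odd_of_cast_ne_zero
      rw [← fS_squarefree hm]
      intro h
      apply hf
      rw [← hms, pow_two, fS_mul S _ _ (mul_ne_zero hs0 hs0) hm.ne_zero, h, fS_mul S _ _ hs0 hs0,
        zmod2_add_self, add_zero]
    · right
      rw [hL, Finset.mem_filter, Finset.mem_Ioc]
      push Not at hs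
      exact ⟨⟨hn1, hn2⟩, s, hs, ⟨m, hms.symm⟩⟩
  have h2 : cnt {n | fS S (n ^ 2 + 1) ≠ 0} X ≤ (GN S X).ncard + L.card := by
    unfold cnt
    have h3 := (Finset.card_le_card hsub).trans (Finset.card_union_le _ _)
    rw [Set.ncard_eq_toFinset_card _ (GN_finite S X)]
    refine le_trans (le_of_eq ?_) h3
    congr
  have h4 : (cnt {n | fS S (n ^ 2 + 1) ≠ 0} X : ℝ) ≤ ((GN S X).ncard : ℝ) + (L.card : ℝ) := by
    exact_mod_cast h2
  linarith

theorem main_one (S : Set ℕ) (hS : ∃ p ∈ S, p.Prime ∧ p % 4 ≠ 3) (X0 : ℕ) :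
    ∃ X : ℕ, X0 ≤ X ∧ (X : ℝ) / Real.log X ^ 37 ≤ ((GN S X).ncard : ℝ) := by
  by_contra hcon
  push Not at hcon
  obtain ⟨p, hpS, hp, hp4⟩ := hS
  have : Fact p.Prime := ⟨hp⟩
  obtain ⟨a, b, hab⟩ := Nat.Prime.sq_add_sq hp4
  have hev : ∀ᶠ x : ℝ in Filter.atTop, ‖Real.log x ^ 121‖ ≤ (1 / 10) * ‖id x‖ :=
    Real.isLittleO_pow_log_id_atTop.bound (by norm_num)
  have hev2 : ∀ᶠ x : ℝ in Filter.atTop, 70 ≤ Real.log x :=
    Real.tendsto_log_atTop.eventually_ge_atTop 70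
  obtain ⟨x1, hx1⟩ := Filter.eventually_atTop.mp (hev.and hev2)
  have hsp : ∀ X : ℕ, max X0 (⌈x1⌉₊ + 3) ≤ X →
      (cnt {n | fS S (n ^ 2 + 1) ≠ 0} X : ℝ) ≤ X / (Real.log X) ^ 36 := by
    intro X hX
    have hX0 : X0 ≤ X := (le_max_left _ _).trans hX
    have hX1 : ⌈x1⌉₊ + 3 ≤ X := (le_max_right _ _).trans hX
    have hxX : x1 ≤ (X : ℝ) := by
      calc x1 ≤ (⌈x1⌉₊ : ℝ) := Nat.le_ceil _
        _ ≤ X := by exact_mod_cast (by omega : ⌈x1⌉₊ ≤ X)
    obtain ⟨hA, hB⟩ := hx1 X hxX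
    set L := Real.log X with hL
    have hLpos : 0 < L := by linarith
    have hXpos : (0 : ℝ) < X := by exact_mod_cast (by omega : 0 < X)
    rw [id, Real.norm_of_nonneg (by positivity), Real.norm_of_nonneg hXpos.le] at hA
    have hgn := hcon X hX0
    set Z := ⌊(X : ℝ) / L ^ 42⌋₊ with hZ
    have hZle : (Z : ℝ) ≤ X / L ^ 42 := Nat.floor_le (by positivity)
    have hZgt : (X : ℝ) / L ^ 42 < Z + 1 := Nat.lt_floor_add_one _
    have hZX : (Z : ℝ) ≤ X := by
      refine hZle.trans ?_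
      rw [div_le_iff₀ (by positivity)]
      have : (1 : ℝ) ≤ L ^ 42 := one_le_pow₀ (by linarith)
      nlinarith
    have hlogZ : 1 + Real.log Z ≤ 2 * L := by
      have h1 : Real.log Z ≤ L := by
        rcases Nat.eq_zero_or_pos Z with h | h
        · rw [h]; simp only [Nat.cast_zero, Real.log_zero]; linarith
        · exact Real.log_le_log (by exact_mod_cast h) hZX
      linarith
    have hlogZ0 : 0 ≤ 1 + Real.log Z := by
      have : 0 ≤ Real.log Z := Real.log_natCast_nonneg _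
      linarith
    have hpow : (1 + Real.log Z) ^ 4 ≤ 16 * L ^ 4 := by
      calc (1 + Real.log Z) ^ 4 ≤ (2 * L) ^ 4 := pow_le_pow_left₀ hlogZ0 hlogZ 4
        _ = 16 * L ^ 4 := by ring
    have hmain := cnt_le S X Z (by omega)
    have t1 : 2 * X * (1 + Real.log Z) ^ 4 / (L ^ 41) ≤ 32 * (X / L ^ 37) := by
      calc 2 * X * (1 + Real.log Z) ^ 4 / (L ^ 41) ≤ 2 * X * (16 * L ^ 4) / (L ^ 41) := by
            apply div_le_div_of_nonneg_right _ (by positivity)
            exact mul_le_mul_of_nonneg_left hpow (by positivity)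
        _ = 32 * (X / L ^ 37) := by field_simp; ring
    have t2 : 2 * Z * (1 + Real.log Z) ^ 4 ≤ 32 * (X / L ^ 37) := by
      calc 2 * Z * (1 + Real.log Z) ^ 4 ≤ 2 * (X / L ^ 42) * (16 * L ^ 4) := by
            apply mul_le_mul _ hpow (by positivity) (by positivity)
            linarith
        _ = 32 * (X / L ^ 37) / L := by field_simp; ring
        _ ≤ 32 * (X / L ^ 37) := by
            apply div_le_self (by positivity)
            linarith
    have t3 : 10 * (X : ℝ) ^ 2 / (Z + 1) ^ 2 ≤ X / L ^ 37 := by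
      have h1 : (X / L ^ 42) ^ 2 ≤ ((Z : ℝ) + 1) ^ 2 :=
        pow_le_pow_left₀ (by positivity) hZgt.le 2
      calc 10 * (X : ℝ) ^ 2 / (Z + 1) ^ 2 ≤ 10 * (X : ℝ) ^ 2 / (X / L ^ 42) ^ 2 :=
            div_le_div_of_nonneg_left (by positivity) (by positivity) h1
        _ = 10 * L ^ 84 := by field_simp
        _ ≤ X / L ^ 37 := by
            rw [le_div_iff₀ (by positivity)]
            calc 10 * L ^ 84 * L ^ 37 = 10 * L ^ 121 := by ring
              _ ≤ (X : ℝ) := by linarith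
    have hfin : (cnt {n | fS S (n ^ 2 + 1) ≠ 0} X : ℝ) ≤ 66 * (X / L ^ 37) := by linarith
    calc (cnt {n | fS S (n ^ 2 + 1) ≠ 0} X : ℝ) ≤ 66 * (X / L ^ 37) := hfin
      _ = (66 / L) * (X / L ^ 36) := by field_simp
      _ ≤ 1 * (X / L ^ 36) := by
          apply mul_le_mul_of_nonneg_right _ (by positivity)
          rw [div_le_one hLpos]; linarith
      _ = X / L ^ 36 := one_mul _
  have hsum := summable_of_sparse 1 le_rfl _ _ hsp
  have hne : ¬(a = 0 ∧ b = 0) := by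
    rintro ⟨rfl, rfl⟩
    have := hp.pos
    simp at hab
    omega
  have hz := rigidity_zero 1 le_rfl (fS S) (fS_mul S) hsum a b hne
  have hNm : Nm 1 a b = p := by unfold Nm; rw [← hab]; ring
  rw [hNm, fS_prime hp hpS] at hz
  exact one_ne_zero hz

end H359R2
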