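import Pool.Agent.H359R2.Sparse

/-! Few `n` in `(X,2X]` have `n^2+1` divisible by a large square. -/

namespace H359R2

open Finset

/-- gap principle for `n^2+1 = m s^2`. -/
lemma pell_gap {m s t a b : ℕ} (ha : a ^ 2 + 1 = m * s ^ 2) (hb : b ^ 2 + 1 = m * t ^ 2)
    (hab : a < b) (ha1 : 1 ≤ a) : 2 * (a + 1) ^ 2 ≤ b ^ 2 + 1 := by
  have hm2 : 2 ≤ m := by
    by_contra hcon
    push Not at hcon
    interval_cases m
    · omega
    · have h1 : a < s := by nlinarith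
      nlinarith
  have hs1 : 1 ≤ s := by
    rcases Nat.eq_zero_or_pos s with h | h
    · rw [h] at ha; simp at ha
    · exact h
  have hst : s < t := by
    by_contra hcon
    push Not at hcon
    have h1 : t ^ 2 ≤ s ^ 2 := Nat.pow_le_pow_left hcon 2
    have h2 : m * t ^ 2 ≤ m * s ^ 2 := Nat.mul_le_mul_left _ h1
    have h3 : a ^ 2 < b ^ 2 := Nat.pow_lt_pow_left hab two_ne_zero
    omega
  -- b s > a t
  have hkey : a * t < b * s := by
    by_contra hcon
    push Not at hcon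
    have h1 : (b * s) ^ 2 ≤ (a * t) ^ 2 := Nat.pow_le_pow_left hcon 2
    zify at ha hb h1 hst hs1
    have h2 : ((b : ℤ) * s) ^ 2 - (a * t) ^ 2 = t ^ 2 - s ^ 2 := by
      linear_combination (s : ℤ) ^ 2 * hb - (t : ℤ) ^ 2 * ha
    nlinarith
  have hta : a < t := by
    by_contra hcon
    push Not at hcon
    zify at ha hb hkey hcon hst hs1 hab ha1
    have h2 : ((b : ℤ) * s - a * t) * (b * s + a * t) = t ^ 2 - s ^ 2 := by
      linear_combination (s : ℤ) ^ 2 * hb - (t : ℤ) ^ 2 * ha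
    have h3 : (1 : ℤ) ≤ b * s - a * t := by linarith
    have h4 : (b : ℤ) * s + a * t ≤ ((b : ℤ) * s - a * t) * (b * s + a * t) := by
      have : (0 : ℤ) ≤ b * s + a * t := by positivity
      nlinarith
    have h5 : (b : ℤ) * s + a * t ≤ t ^ 2 - s ^ 2 := by linarith
    have h6 : (t : ℤ) ^ 2 ≤ a * t := by nlinarith
    have h7 : (0 : ℤ) ≤ b * s := by positivity
    have h8 : (1 : ℤ) ≤ s ^ 2 := by nlinarith
    linarith
  calc 2 * (a + 1) ^ 2 ≤ m * t ^ 2 := by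
        apply Nat.mul_le_mul hm2
        exact Nat.pow_le_pow_left hta 2
    _ = b ^ 2 + 1 := hb.symm

/-- at most two `n` in `(X,2X]` with `n^2+1 = m s^2`. -/
lemma card_pell_le (m X : ℕ) (S : Finset ℕ)
    (hS : ∀ n ∈ S, X < n ∧ n ≤ X + X ∧ ∃ s, n ^ 2 + 1 = m * s ^ 2) : S.card ≤ 2 := by
  by_contra hcon
  push Not at hcon
  obtain ⟨a, b, c, ha, hb, hc, hab, hac, hbc⟩ := Finset.two_lt_card_iff.mp hcon
  have key : ∀ x ∈ S, ∀ y ∈ S, ∀ z ∈ S, x < y → y < z → False := by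
    intro x hx y hy z hz hxy hyz
    obtain ⟨hx1, hx2, s, hs⟩ := hS x hx
    obtain ⟨hy1, hy2, t, ht⟩ := hS y hy
    obtain ⟨hz1, hz2, r, hr⟩ := hS z hz
    have h1 := pell_gap hs ht hxy (by omega)
    have h2 := pell_gap ht hr hyz (by omega)
    have h3 : z ^ 2 ≤ (X + X) ^ 2 := Nat.pow_le_pow_left hz2 2
    have h4 : (X + 1) ^ 2 ≤ x ^ 2 := Nat.pow_le_pow_left hx1 2
    nlinarith
  rcases lt_trichotomy a b with h1 | h1 | h1
  · rcases lt_trichotomy b c with h2 | h2 | h2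
    · exact key a ha b hb c hc h1 h2
    · exact hbc h2
    · rcases lt_trichotomy a c with h3 | h3 | h3
      · exact key a ha c hc b hb h3 h2
      · exact hac h3
      · exact key c hc a ha b hb h3 h1
  · exact hab h1
  · rcases lt_trichotomy a c with h2 | h2 | h2
    · exact key b hb a ha c hc h1 h2
    · exact hac h2
    · rcases lt_trichotomy b c with h3 | h3 | h3
      · exact key b hb c hc a ha h3 h2
      · exact hbc h3
      · exact key c hc b hb a ha h3 h1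

lemma tau_sq_le (s : ℕ) : (tau (s ^ 2) : ℝ) ≤ (tau s : ℝ) ^ 2 := by
  have := tau_mul_le s s
  rw [← pow_two, ← pow_two] at this
  exact_mod_cast this

open Classical in
/-- `n ∈ (X,2X]` such that `s^2 ∣ n^2+1` for some `s > S`. -/
lemma card_large_square (X Z : ℕ) (S : ℝ) (hX : 1 ≤ X) (hS : 0 < S) :
    (((Finset.Ioc X (X + X)).filter (fun n => ∃ s : ℕ, S < s ∧ s ^ 2 ∣ n ^ 2 + 1)).card : ℝ) ≤
      2 * X * (1 + Real.log Z) ^ 4 / S + 2 * Z * (1 + Real.log Z) ^ 4 +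
        10 * (X : ℝ) ^ 2 / (Z + 1) ^ 2 := by
  set M := 5 * X ^ 2 / (Z + 1) ^ 2 with hM
  let P : ℕ → Finset ℕ := fun s => (Finset.Ioc X (X + X)).filter (fun n => s ^ 2 ∣ n ^ 2 + 1)
  let Q : ℕ → Finset ℕ := fun m => (Finset.Ioc X (X + X)).filter
    (fun n => ∃ s, n ^ 2 + 1 = m * s ^ 2)
  set I := (Finset.Icc 1 Z).filter (fun s : ℕ => S < s) with hI
  have hsub : (Finset.Ioc X (X + X)).filter (fun n => ∃ s : ℕ, S < s ∧ s ^ 2 ∣ n ^ 2 + 1) ⊆
      (I.biUnion P) ∪ ((Finset.Icc 1 M).biUnion Q) := by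
    intro n hn
    rw [Finset.mem_filter, Finset.mem_Ioc] at hn
    obtain ⟨⟨hn1, hn2⟩, s, hs, hdvd⟩ := hn
    rw [Finset.mem_union, Finset.mem_biUnion, Finset.mem_biUnion]
    have hs1 : 1 ≤ s := by
      rcases Nat.eq_zero_or_pos s with h | h
      · rw [h] at hs; simp at hs; linarith
      · exact h
    by_cases hsZ : s ≤ Z
    · left
      refine ⟨s, ?_, ?_⟩
      · rw [hI, Finset.mem_filter, Finset.mem_Icc]
        exact ⟨⟨hs1, hsZ⟩, hs⟩
      · rw [Finset.mem_filter, Finset.mem_Ioc]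
        exact ⟨⟨hn1, hn2⟩, hdvd⟩
    · right
      push Not at hsZ
      obtain ⟨m, hm⟩ := hdvd
      refine ⟨m, ?_, ?_⟩
      · rw [Finset.mem_Icc]
        constructor
        · rcases Nat.eq_zero_or_pos m with h | h
          · rw [h] at hm; simp at hm
          · exact h
        · rw [hM, Nat.le_div_iff_mul_le (by positivity)]
          have h1 : (Z + 1) ^ 2 ≤ s ^ 2 := Nat.pow_le_pow_left hsZ 2
          have h2 : m * (Z + 1) ^ 2 ≤ m * s ^ 2 := Nat.mul_le_mul_left _ h1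
          have h3 : n ^ 2 ≤ (X + X) ^ 2 := Nat.pow_le_pow_left hn2 2
          have h4 : 1 ≤ X ^ 2 := Nat.one_le_pow _ _ hX
          nlinarith
      · rw [Finset.mem_filter, Finset.mem_Ioc]
        exact ⟨⟨hn1, hn2⟩, s, by rw [hm]; ring⟩
  have hP : ∀ s ∈ I, ((P s).card : ℝ) ≤ 2 * X / S * ((tau s : ℝ) ^ 2 / s) +
      2 * Z * ((tau s : ℝ) ^ 2 / s) := by
    intro s hs
    rw [hI, Finset.mem_filter, Finset.mem_Icc] at hs
    obtain ⟨⟨hs1, hsZ⟩, hsS⟩ := hs
    have hsR : (0 : ℝ) < s := by exact_mod_cast hs1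
    have h1 := card_dvd_sq_add 1 (s ^ 2) X X le_rfl (Nat.one_le_pow _ _ hs1)
    have h2 : ((P s).card : ℝ) ≤ 2 * (tau s : ℝ) ^ 2 * (X / (s : ℝ) ^ 2 + 1) := by
      calc ((P s).card : ℝ) ≤ 2 * ((1 : ℕ) : ℝ) * tau (s ^ 2) * (X / ((s ^ 2 : ℕ) : ℝ) + 1) := h1
        _ ≤ 2 * (tau s : ℝ) ^ 2 * (X / (s : ℝ) ^ 2 + 1) := by
          push_cast
          rw [mul_one]
          apply mul_le_mul_of_nonneg_right _ (by positivity)
          exact mul_le_mul_of_nonneg_left (tau_sq_le s) (by norm_num)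
    refine h2.trans ?_
    have h3 : (X : ℝ) / (s : ℝ) ^ 2 ≤ X / S * (1 / s) := by
      rw [div_mul_div_comm, mul_one]
      apply div_le_div_of_nonneg_left (by positivity) (by positivity)
      nlinarith
    have h4 : (1 : ℝ) ≤ Z * (1 / s) := by
      rw [mul_one_div, le_div_iff₀ hsR, one_mul]
      exact_mod_cast hsZ
    calc 2 * (tau s : ℝ) ^ 2 * (X / (s : ℝ) ^ 2 + 1)
        ≤ 2 * (tau s : ℝ) ^ 2 * (X / S * (1 / s) + Z * (1 / s)) :=
          mul_le_mul_of_nonneg_left (add_le_add h3 h4) (by positivity)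
      _ = _ := by ring
  have hQ : ∀ m ∈ Finset.Icc 1 M, (Q m).card ≤ 2 := by
    intro m _
    apply card_pell_le m X
    intro n hn
    rw [Finset.mem_filter, Finset.mem_Ioc] at hn
    exact ⟨hn.1.1, hn.1.2, hn.2⟩
  have hT : ∑ s ∈ I, (tau s : ℝ) ^ 2 / s ≤ (1 + Real.log Z) ^ 4 := by
    calc ∑ s ∈ I, (tau s : ℝ) ^ 2 / s ≤ ∑ s ∈ Finset.Icc 1 Z, (tau s : ℝ) ^ 2 / s := by
          apply Finset.sum_le_sum_of_subset_of_nonneg (Finset.filter_subset _ _)
          intro s _ _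
          positivity
      _ ≤ (1 + Real.log Z) ^ 4 := by
          have := tsm_le 2 Z
          norm_num at this
          exact this
  have hunion : ((I.biUnion P).card : ℝ) ≤ 2 * X * (1 + Real.log Z) ^ 4 / S +
      2 * Z * (1 + Real.log Z) ^ 4 := by
    calc ((I.biUnion P).card : ℝ) ≤ ∑ s ∈ I, ((P s).card : ℝ) := by
          exact_mod_cast Finset.card_biUnion_le
      _ ≤ ∑ s ∈ I, (2 * X / S * ((tau s : ℝ) ^ 2 / s) + 2 * Z * ((tau s : ℝ) ^ 2 / s)) :=
          Finset.sum_le_sum hP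
      _ = (2 * X / S + 2 * Z) * ∑ s ∈ I, (tau s : ℝ) ^ 2 / s := by
          rw [Finset.sum_add_distrib, ← Finset.mul_sum, ← Finset.mul_sum]; ring
      _ ≤ (2 * X / S + 2 * Z) * (1 + Real.log Z) ^ 4 :=
          mul_le_mul_of_nonneg_left hT (by positivity)
      _ = _ := by ring
  have hunion2 : ((((Finset.Icc 1 M).biUnion Q).card : ℕ) : ℝ) ≤ 10 * (X : ℝ) ^ 2 / (Z + 1) ^ 2 := by
    calc ((((Finset.Icc 1 M).biUnion Q).card : ℕ) : ℝ) ≤ ∑ m ∈ Finset.Icc 1 M, ((Q m).card : ℝ) := by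
          exact_mod_cast Finset.card_biUnion_le
      _ ≤ ∑ m ∈ Finset.Icc 1 M, (2 : ℝ) := by
          apply Finset.sum_le_sum
          intro m hm
          exact_mod_cast hQ m hm
      _ = M * 2 := by rw [Finset.sum_const, Nat.card_Icc, nsmul_eq_mul]; simp
      _ ≤ (5 * (X : ℝ) ^ 2 / (Z + 1) ^ 2) * 2 := by
          apply mul_le_mul_of_nonneg_right _ (by norm_num)
          have := @Nat.cast_div_le ℝ _ _ _ (5 * X ^ 2) ((Z + 1) ^ 2)
          push_cast at this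
          rw [hM]
          exact this
      _ = _ := by ring
  calc (((Finset.Ioc X (X + X)).filter (fun n => ∃ s : ℕ, S < s ∧ s ^ 2 ∣ n ^ 2 + 1)).card : ℝ)
      ≤ ((I.biUnion P ∪ (Finset.Icc 1 M).biUnion Q).card : ℝ) := by
        exact_mod_cast Finset.card_le_card hsub
    _ ≤ ((I.biUnion P).card : ℝ) + (((Finset.Icc 1 M).biUnion Q).card : ℝ) := by
        exact_mod_cast Finset.card_union_le _ _
    _ ≤ _ := add_le_add hunion hunion2

end H359R2
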