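import Pool.Agent.H359R2.Engine
import Pool.Agent.H359R2.Count

/-! Sparse sets have summable weights. -/

namespace H359R2

open Finset

lemma sum_range_dyadic (w : ℕ → ℝ) (J : ℕ) :
    ∑ n ∈ Finset.range (2 ^ J + 1), w n =
      ∑ n ∈ Finset.range 2, w n + ∑ j ∈ Finset.range J, ∑ n ∈ Finset.Ioc (2 ^ j) (2 ^ j + 2 ^ j), w n := by
  induction J with
  | zero => simp
  | succ J ih =>
    rw [Finset.sum_range_succ _ J, ← add_assoc, ← ih]
    have h1 : (2 : ℕ) ^ (J + 1) = 2 ^ J + 2 ^ J := by ring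
    rw [h1]
    have h2 : Finset.range (2 ^ J + 2 ^ J + 1) =
        Finset.range (2 ^ J + 1) ∪ Finset.Ioc (2 ^ J) (2 ^ J + 2 ^ J) := by
      ext n
      simp only [Finset.mem_union, Finset.mem_range, Finset.mem_Ioc]
      omega
    rw [h2, Finset.sum_union]
    rw [Finset.disjoint_left]
    intro n hn hn'
    rw [Finset.mem_range] at hn
    rw [Finset.mem_Ioc] at hn'
    omega

lemma summable_of_dyadic (w : ℕ → ℝ) (hw : ∀ n, 0 ≤ w n)
    (hs : Summable (fun j => ∑ n ∈ Finset.Ioc (2 ^ j) (2 ^ j + 2 ^ j), w n)) : Summable w := by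
  set b : ℕ → ℝ := fun j => ∑ n ∈ Finset.Ioc (2 ^ j) (2 ^ j + 2 ^ j), w n with hb
  have hb0 : ∀ j, 0 ≤ b j := fun j => Finset.sum_nonneg (fun n _ => hw n)
  apply summable_of_sum_range_le (c := ∑ n ∈ Finset.range 2, w n + ∑' j, b j) hw
  intro N
  have h1 : N ≤ 2 ^ N + 1 := by
    have := Nat.lt_two_pow_self (n := N)
    omega
  calc ∑ n ∈ Finset.range N, w n ≤ ∑ n ∈ Finset.range (2 ^ N + 1), w n := by
        apply Finset.sum_le_sum_of_subset_of_nonneg
        · intro n hn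
          rw [Finset.mem_range] at hn ⊢
          omega
        · intro n _ _; exact hw n
    _ = ∑ n ∈ Finset.range 2, w n + ∑ j ∈ Finset.range N, b j := sum_range_dyadic w N
    _ ≤ ∑ n ∈ Finset.range 2, w n + ∑' j, b j := by
        have := hs.sum_le_tsum (Finset.range N) (fun j _ => hb0 j)
        linarith

open Classical in
/-- number of elements of `B` in `(X, 2X]` -/
noncomputable def cnt (B : Set ℕ) (X : ℕ) : ℕ :=
  ((Finset.Ioc X (X + X)).filter (fun n => n ∈ B)).card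

lemma block_sq_le (d : ℕ) (hd : 1 ≤ d) (B : Set ℕ) (X : ℕ) (hX : 1 ≤ X) :
    (∑ n ∈ Finset.Ioc X (X + X), wt d B n) ^ 2 ≤
      (cnt B X : ℝ) / X ^ 2 * (8 * d * (3 * X + d) * (1 + Real.log ((2 * X + d : ℕ) : ℝ)) ^ 32) := by
  classical
  have hXR : (0 : ℝ) < X := by exact_mod_cast hX
  set F := (Finset.Ioc X (X + X)).filter (fun n => n ∈ B) with hF
  have h1 : ∑ n ∈ Finset.Ioc X (X + X), wt d B n ≤
      ∑ n ∈ F, (1 / X : ℝ) * (tau (n ^ 2 + d) : ℝ) := by
    rw [hF, Finset.sum_filter]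
    apply Finset.sum_le_sum
    intro n hn
    rw [Finset.mem_Ioc] at hn
    by_cases hB : n ∈ B
    · rw [if_pos hB, wt_of_mem hB, one_div, mul_comm, ← div_eq_mul_inv]
      apply div_le_div_of_nonneg_left (by positivity) hXR
      exact_mod_cast hn.1.le
    · rw [if_neg hB]
      unfold wt
      rw [Set.indicator_of_notMem hB]
  have h0 : 0 ≤ ∑ n ∈ Finset.Ioc X (X + X), wt d B n :=
    Finset.sum_nonneg (fun n _ => wt_nonneg d B n)
  calc (∑ n ∈ Finset.Ioc X (X + X), wt d B n) ^ 2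
      ≤ (∑ n ∈ F, (1 / X : ℝ) * (tau (n ^ 2 + d) : ℝ)) ^ 2 := pow_le_pow_left₀ h0 h1 2
    _ ≤ (∑ n ∈ F, (1 / X : ℝ) ^ 2) * (∑ n ∈ F, (tau (n ^ 2 + d) : ℝ) ^ 2) :=
        Finset.sum_mul_sq_le_sq_mul_sq F _ _
    _ = ((F.card : ℝ) / X ^ 2) * (∑ n ∈ F, (tau (n ^ 2 + d) : ℝ) ^ 2) := by
        rw [Finset.sum_const, nsmul_eq_mul]; congr 1; field_simp
    _ ≤ ((F.card : ℝ) / X ^ 2) * (∑ n ∈ Finset.Ioc X (X + X), (tau (n ^ 2 + d) : ℝ) ^ 2) := by
        apply mul_le_mul_of_nonneg_left _ (by positivity)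
        apply Finset.sum_le_sum_of_subset_of_nonneg (Finset.filter_subset _ _)
        intro n _ _
        positivity
    _ ≤ (cnt B X : ℝ) / X ^ 2 * (8 * d * (3 * X + d) * (1 + Real.log ((2 * X + d : ℕ) : ℝ)) ^ 32) := by
        have h2 := second_moment d X hd
        have h3 : cnt B X = F.card := by
          unfold cnt
          rw [hF]
        rw [h3]
        exact mul_le_mul_of_nonneg_left h2 (by positivity)

/-- sparse sets have summable weights -/
theorem summable_of_sparse (d : ℕ) (hd : 1 ≤ d) (B : Set ℕ) (X0 : ℕ)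
    (hB : ∀ X : ℕ, X0 ≤ X → (cnt B X : ℝ) ≤ X / (Real.log X) ^ 36) : Summable (wt d B) := by
  apply summable_of_dyadic _ (wt_nonneg d B)
  -- bound each block by C / j^2
  set L2 := Real.log 2 with hL2
  have hL2pos : 0 < L2 := Real.log_pos (by norm_num)
  set A : ℝ := 2 + Real.log (2 + d) with hA
  have hdR : (1 : ℝ) ≤ d := by exact_mod_cast hd
  have hApos : 0 < A := by
    have : 0 ≤ Real.log (2 + d) := Real.log_nonneg (by linarith)
    linarith
  set C : ℝ := 8 * d * (3 + d) * A ^ 32 / L2 ^ 36 with hC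
  have hCpos : 0 < C := by positivity
  have hbound : ∀ j : ℕ, X0 + 1 ≤ j →
      ‖∑ n ∈ Finset.Ioc (2 ^ j) (2 ^ j + 2 ^ j), wt d B n‖ ≤ Real.sqrt C * (1 / (j : ℝ) ^ 2) := by
    intro j hj
    have hj1 : (1 : ℝ) ≤ j := by exact_mod_cast (by omega : 1 ≤ j)
    have hjpos : (0 : ℝ) < j := by linarith
    have hX1 : 1 ≤ 2 ^ j := Nat.one_le_two_pow
    have hXX : X0 ≤ 2 ^ j := by
      have := Nat.lt_two_pow_self (n := j)
      omega
    have h1 := block_sq_le d hd B (2 ^ j) hX1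
    have h2 := hB (2 ^ j) hXX
    have hlog : Real.log ((2 ^ j : ℕ) : ℝ) = j * L2 := by
      push_cast
      rw [Real.log_pow]
    rw [hlog] at h2
    have hXpos : (0 : ℝ) < ((2 ^ j : ℕ) : ℝ) := by positivity
    have hlog2 : 1 + Real.log ((2 * 2 ^ j + d : ℕ) : ℝ) ≤ A * j := by
      have h3 : ((2 * 2 ^ j + d : ℕ) : ℝ) ≤ (2 + d) * 2 ^ j := by
        push_cast
        have : (1 : ℝ) ≤ 2 ^ j := one_le_pow₀ (by norm_num)
        nlinarith
      have h4 : Real.log ((2 * 2 ^ j + d : ℕ) : ℝ) ≤ Real.log ((2 + d) * 2 ^ j) := by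
        apply Real.log_le_log _ h3
        positivity
      rw [Real.log_mul (by positivity) (by positivity), Real.log_pow] at h4
      have h5 : L2 ≤ 1 := by
        rw [hL2]
        have := Real.log_two_lt_d9
        linarith
      have h6 : 0 ≤ Real.log (2 + d) := Real.log_nonneg (by linarith)
      rw [hA]
      nlinarith
    have hlog0 : 0 ≤ 1 + Real.log ((2 * 2 ^ j + d : ℕ) : ℝ) := by
      have : 0 ≤ Real.log ((2 * 2 ^ j + d : ℕ) : ℝ) := Real.log_natCast_nonneg _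
      linarith
    have h7 : (∑ n ∈ Finset.Ioc (2 ^ j) (2 ^ j + 2 ^ j), wt d B n) ^ 2 ≤ C * (1 / (j : ℝ) ^ 2) ^ 2 := by
      refine h1.trans ?_
      set X : ℝ := ((2 ^ j : ℕ) : ℝ) with hX
      have hX1' : (1 : ℝ) ≤ X := by rw [hX]; exact_mod_cast hX1
      calc (cnt B (2 ^ j) : ℝ) / X ^ 2 * (8 * d * (3 * X + d) *
            (1 + Real.log ((2 * 2 ^ j + d : ℕ) : ℝ)) ^ 32)
          ≤ (X / (j * L2) ^ 36) / X ^ 2 * (8 * d * ((3 + d) * X) * (A * j) ^ 32) := by
            apply mul_le_mul _ _ (by positivity) (by positivity)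
            · exact div_le_div_of_nonneg_right h2 (by positivity)
            · apply mul_le_mul _ _ (by positivity) (by positivity)
              · apply mul_le_mul_of_nonneg_left _ (by positivity)
                nlinarith
              · exact pow_le_pow_left₀ hlog0 hlog2 32
        _ = C * (1 / (j : ℝ) ^ 2) ^ 2 := by
            rw [hC]
            field_simp
    have h0 : 0 ≤ ∑ n ∈ Finset.Ioc (2 ^ j) (2 ^ j + 2 ^ j), wt d B n :=
      Finset.sum_nonneg (fun n _ => wt_nonneg d B n)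
    rw [Real.norm_of_nonneg h0]
    have h8 : (Real.sqrt C * (1 / (j : ℝ) ^ 2)) ^ 2 = C * (1 / (j : ℝ) ^ 2) ^ 2 := by
      rw [mul_pow, Real.sq_sqrt hCpos.le]
    rw [← h8] at h7
    exact (pow_le_pow_iff_left₀ h0 (by positivity) two_ne_zero).mp h7
  have hsum : Summable (fun j : ℕ => Real.sqrt C * (1 / (j : ℝ) ^ 2)) := by
    apply Summable.mul_left
    exact Real.summable_one_div_nat_pow.mpr (by norm_num)
  exact Summable.of_norm_bounded_eventually_nat hsum
    (Filter.eventually_atTop.mpr ⟨X0 + 1, hbound⟩)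

end H359R2
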