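import Mathlib

/-! Divisor function estimates. -/

namespace H359R2

open Finset

/-- number of divisors -/
def tau (n : ℕ) : ℕ := n.divisors.card

lemma tau_mul_le (a b : ℕ) : tau (a * b) ≤ tau a * tau b := by
  unfold tau
  classical
  rw [Nat.divisors_mul]
  exact Finset.card_mul_le

lemma tau_pos {n : ℕ} (hn : n ≠ 0) : 0 < tau n := by
  unfold tau
  exact Finset.card_pos.mpr ⟨1, Nat.one_mem_divisors.mpr hn⟩

lemma tau_prime {p : ℕ} (hp : p.Prime) : tau p = 2 := by
  unfold tau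
  rw [hp.divisors, Finset.card_pair hp.one_lt.ne]

/-- Landreau / Wolke type inequality, crude form. -/
lemma exists_small_divisor (N : ℕ) (hN : N ≠ 0) :
    ∃ m, m ∣ N ∧ m * m ≤ N ∧ tau N ≤ 2 * tau m ^ 2 := by
  classical
  -- largest divisor with square at most N
  have hne : (N.divisors.filter (fun a => a * a ≤ N)).Nonempty :=
    ⟨1, by simp [hN]; omega⟩
  obtain ⟨A, hA, hmax⟩ := Finset.exists_max_image _ (fun a : ℕ => a) hne
  rw [Finset.mem_filter, Nat.mem_divisors] at hA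
  obtain ⟨⟨hAN, _⟩, hAsq⟩ := hA
  have hA0 : A ≠ 0 := by
    rintro rfl
    exact hN (Nat.eq_zero_of_zero_dvd hAN)
  obtain ⟨c, hc⟩ := hAN
  have hc0 : c ≠ 0 := by
    rintro rfl
    exact hN (by simpa using hc)
  by_cases hc1 : c = 1
  · -- A = N
    have hA1 : A = N := by rw [hc, hc1, mul_one]
    refine ⟨A, ⟨1, by omega⟩, hAsq, ?_⟩
    rw [← hA1]
    have h := tau_pos hA0
    nlinarith
  · obtain ⟨p, hp, hpc⟩ := Nat.exists_prime_and_dvd hc1
    obtain ⟨C, hC⟩ := hpc
    have hC0 : C ≠ 0 := by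
      rintro rfl
      exact hc0 (by simpa using hC)
    have hNeq : N = A * p * C := by rw [hc, hC]; ring
    have hbig : N < (A * p) * (A * p) := by
      by_contra hcon
      push Not at hcon
      have hmem : A * p ∈ N.divisors.filter (fun a => a * a ≤ N) := by
        rw [Finset.mem_filter, Nat.mem_divisors]
        exact ⟨⟨⟨C, hNeq⟩, hN⟩, hcon⟩
      have := hmax _ hmem
      have h2 : 2 ≤ p := hp.two_le
      have h3 : A * 2 ≤ A * p := Nat.mul_le_mul_left _ h2
      omega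
    have hCsq : C * C ≤ N := by
      by_contra hcon
      push Not at hcon
      -- C < A p as N < (A p)^2 = , C * (A p) = N
      have h1 : C < A * p := by
        by_contra h
        push Not at h
        have : (A * p) * (A * p) ≤ (A * p) * C := Nat.mul_le_mul_left _ h
        omega
      have h2 : C * C < (A * p) * C := Nat.mul_lt_mul_of_pos_right h1 (Nat.pos_of_ne_zero hC0)
      omega
    have ht : tau N ≤ 2 * (tau A * tau C) := by
      calc tau N = tau (A * p * C) := by rw [← hNeq]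
        _ ≤ tau (A * p) * tau C := tau_mul_le _ _
        _ ≤ (tau A * tau p) * tau C := Nat.mul_le_mul_right _ (tau_mul_le _ _)
        _ = 2 * (tau A * tau C) := by rw [tau_prime hp]; ring
    rcases le_total (tau A) (tau C) with h | h
    · refine ⟨C, ⟨A * p, by rw [hNeq]; ring⟩, hCsq, ?_⟩
      have : tau A * tau C ≤ tau C * tau C := Nat.mul_le_mul_right _ h
      rw [pow_two]
      omega
    · refine ⟨A, ⟨c, hc⟩, hAsq, ?_⟩
      have : tau A * tau C ≤ tau A * tau A := Nat.mul_le_mul_left _ h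
      rw [pow_two]
      omega

/-- harmonic-type sums -/
noncomputable def harm (M : ℕ) : ℝ := ∑ m ∈ Finset.Icc 1 M, (1 : ℝ) / m

noncomputable def tsm (k M : ℕ) : ℝ := ∑ m ∈ Finset.Icc 1 M, (tau m : ℝ) ^ k / m

lemma tsm_zero (M : ℕ) : tsm 0 M = harm M := by
  simp [tsm, harm]

lemma tsm_succ_le (k M : ℕ) : tsm (k + 1) M ≤ tsm k M ^ 2 := by
  classical
  have h1 : ∀ m ∈ Finset.Icc 1 M, (tau m : ℝ) ^ (k + 1) / m ≤
      ∑ x ∈ m.divisorsAntidiagonal, ((tau x.1 : ℝ) ^ k / x.1) * ((tau x.2 : ℝ) ^ k / x.2) := by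
    intro m hm
    rw [Finset.mem_Icc] at hm
    have hcard : (tau m : ℝ) = ∑ x ∈ m.divisorsAntidiagonal, (1 : ℝ) := by
      rw [Finset.sum_const, nsmul_eq_mul, mul_one]
      congr 1
      unfold tau
      rw [← Nat.map_div_right_divisors, Finset.card_map]
    have : (tau m : ℝ) ^ (k + 1) / m = ∑ x ∈ m.divisorsAntidiagonal, (tau m : ℝ) ^ k / m := by
      rw [Finset.sum_const, nsmul_eq_mul, pow_succ]
      rw [Finset.sum_const, nsmul_eq_mul, mul_one] at hcard
      rw [← hcard]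
      ring
    rw [this]
    apply Finset.sum_le_sum
    intro x hx
    rw [Nat.mem_divisorsAntidiagonal] at hx
    obtain ⟨hx, hm0⟩ := hx
    have hx1 : x.1 ≠ 0 := by
      intro h; rw [h] at hx; simp at hx; omega
    have hx2 : x.2 ≠ 0 := by
      intro h; rw [h] at hx; simp at hx; omega
    rw [div_mul_div_comm, ← mul_pow]
    have hle : (tau m : ℝ) ≤ tau x.1 * tau x.2 := by
      rw [← hx]
      exact_mod_cast tau_mul_le _ _
    have hmm : (m : ℝ) = x.1 * x.2 := by rw [← hx]; push_cast; ring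
    rw [hmm]
    apply div_le_div_of_nonneg_right _ (by positivity)
    exact pow_le_pow_left₀ (by positivity) hle k
  have h2 : tsm (k + 1) M ≤ ∑ m ∈ Finset.Icc 1 M,
      ∑ x ∈ m.divisorsAntidiagonal, ((tau x.1 : ℝ) ^ k / x.1) * ((tau x.2 : ℝ) ^ k / x.2) :=
    Finset.sum_le_sum h1
  refine h2.trans ?_
  rw [pow_two, tsm, Finset.sum_mul_sum, ← Finset.sum_product']
  set P := Finset.Icc 1 M ×ˢ Finset.Icc 1 M with hP
  have h3 : ∑ m ∈ Finset.Icc 1 M,
      ∑ x ∈ m.divisorsAntidiagonal, ((tau x.1 : ℝ) ^ k / x.1) * ((tau x.2 : ℝ) ^ k / x.2) =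
      ∑ m ∈ Finset.Icc 1 M, ∑ x ∈ (P.filter (fun x => x.1 * x.2 ∈ Finset.Icc 1 M)) with x.1 * x.2 = m,
        ((tau x.1 : ℝ) ^ k / x.1) * ((tau x.2 : ℝ) ^ k / x.2) := by
    apply Finset.sum_congr rfl
    intro m hm
    rw [Finset.mem_Icc] at hm
    apply Finset.sum_congr _ (fun _ _ => rfl)
    ext x
    simp only [Nat.mem_divisorsAntidiagonal, Finset.mem_filter, hP, Finset.mem_product,
      Finset.mem_Icc]
    constructor
    · rintro ⟨h, h0⟩
      have hx1 : x.1 ≠ 0 := by
        intro h'; rw [h'] at h; simp at h; omega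
      have hx2 : x.2 ≠ 0 := by
        intro h'; rw [h'] at h; simp at h; omega
      have hl1 : x.1 ≤ m := Nat.le_of_dvd (by omega) ⟨x.2, h.symm⟩
      have hl2 : x.2 ≤ m := Nat.le_of_dvd (by omega) ⟨x.1, by rw [← h]; ring⟩
      omega
    · rintro ⟨_, h⟩
      exact ⟨h, by omega⟩
  rw [h3, Finset.sum_fiberwise_of_maps_to (fun x hx => (Finset.mem_filter.mp hx).2)]
  apply Finset.sum_le_sum_of_subset_of_nonneg (Finset.filter_subset _ _)
  intro x _ _
  positivity

lemma tsm_nonneg (k M : ℕ) : 0 ≤ tsm k M := by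
  unfold tsm
  positivity

lemma harm_le (M : ℕ) : harm M ≤ 1 + Real.log M := by
  have h := harmonic_le_one_add_log M
  rw [harmonic_eq_sum_Icc] at h
  unfold harm
  push_cast at h
  simpa using h

lemma tsm_le_pow (k M : ℕ) : tsm k M ≤ (harm M) ^ (2 ^ k) := by
  induction k with
  | zero => simp [tsm_zero]
  | succ k ih =>
    calc tsm (k + 1) M ≤ tsm k M ^ 2 := tsm_succ_le k M
      _ ≤ ((harm M) ^ (2 ^ k)) ^ 2 := pow_le_pow_left₀ (tsm_nonneg k M) ih 2
      _ = harm M ^ (2 ^ (k + 1)) := by rw [← pow_mul, ← pow_succ]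

lemma harm_nonneg (M : ℕ) : 0 ≤ harm M := by
  unfold harm
  positivity

lemma tsm_le (k M : ℕ) : tsm k M ≤ (1 + Real.log M) ^ (2 ^ k) :=
  (tsm_le_pow k M).trans (pow_le_pow_left₀ (harm_nonneg M) (harm_le M) _)

end H359R2
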